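import Pool.Agent.H923R2.FZ.Stubs1

/-! FCB: free comparison from free Haar unitaries (helper991) -/

set_option autoImplicit false

open scoped ComplexConjugate

noncomputable section

namespace Pool.Agent.H923R2.FZ.T_FCB

open Pool.Agent.H923R2.FP Pool.Agent.H923R2.FZ

variable {B : Type} [CStarAlgebra B]

theorem norm_le_of_PC {x : B} (h : PC x) : ‖x‖ ≤ 1 := by
  have h1 : IsSelfAdjoint x := h.1
  have h2 := norm_cfc_le (f := fun t : ℝ => t) (a := x) (c := 1) zero_le_one (by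
    intro t ht
    have h3 := h.2 ht
    rw [Real.norm_eq_abs, abs_of_nonneg h3.1]
    exact h3.2)
  rwa [cfc_id' ℝ x] at h2

theorem PC_star_mul_self {z : B} (hz : ‖z‖ ≤ 1) : PC (star z * z) := by
  refine ⟨IsSelfAdjoint.star_mul_self z, fun t ht => ⟨?_, ?_⟩⟩
  · exact spectrum_star_mul_self_nonneg t ht
  · have h1 : ‖t‖ ≤ ‖star z * z‖ * ‖(1 : B)‖ := spectrum.norm_le_norm_mul_of_mem ht
    have h2 : ‖star z * z‖ ≤ 1 := by
      rw [CStarRing.norm_star_mul_self]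
      nlinarith [norm_nonneg z]
    have h3 : ‖(1 : B)‖ ≤ 1 := by
      rcases subsingleton_or_nontrivial B with hB | hB
      · rw [Subsingleton.elim (1 : B) 0, norm_zero]
        exact zero_le_one
      · exact CStarRing.norm_one.le
    calc t ≤ ‖t‖ := Real.le_norm_self t
      _ ≤ ‖star z * z‖ * ‖(1 : B)‖ := h1
      _ ≤ 1 * 1 := mul_le_mul h2 h3 (norm_nonneg _) zero_le_one
      _ = 1 := one_mul 1

theorem exists_sqrt {g : B} (h : PC g) : ∃ q : B, star q = q ∧ q * q = g ∧ ‖q‖ ≤ 1 := by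
  have h1 : IsSelfAdjoint g := h.1
  have hs : IsSelfAdjoint (cfc Real.sqrt g) := cfc_predicate Real.sqrt g
  have hq : cfc Real.sqrt g * cfc Real.sqrt g = g := by
    rw [← cfc_mul Real.sqrt Real.sqrt g (by fun_prop) (by fun_prop)]
    conv_rhs => rw [← cfc_id' ℝ g]
    refine cfc_congr ?_
    intro t ht
    exact Real.mul_self_sqrt (h.2 ht).1
  refine ⟨cfc Real.sqrt g, hs, hq, ?_⟩
  have h2 : ‖cfc Real.sqrt g‖ * ‖cfc Real.sqrt g‖ ≤ 1 := by
    rw [← CStarRing.norm_star_mul_self, hs.star_eq, hq]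
    exact norm_le_of_PC h
  nlinarith [norm_nonneg (cfc Real.sqrt g)]

/-- approximation of a positive contraction -/
theorem approx {g : B} {S : StarSubalgebra ℂ B} {q y : B} (hq : star q = q)
    (hqq : q * q = g) (hq1 : ‖q‖ ≤ 1) {ε : ℝ} (hε : 0 < ε) (hy : y ∈ S) (hqy : ‖q - y‖ < ε) :
    ∃ g' ∈ S, PC g' ∧ ‖g - g'‖ ≤ 4 * ε := by
  have hy1 : ‖y‖ ≤ 1 + ε := by
    calc ‖y‖ = ‖q - (q - y)‖ := by rw [sub_sub_cancel]
      _ ≤ ‖q‖ + ‖q - y‖ := norm_sub_le _ _
      _ ≤ 1 + ε := by linarith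
  have hc0 : 0 < 1 + ε := by linarith
  set c : ℂ := (((1 + ε)⁻¹ : ℝ) : ℂ) with hc
  have hcn : ‖c‖ = (1 + ε)⁻¹ := by
    rw [hc, Complex.norm_real, Real.norm_eq_abs, abs_of_pos (by positivity)]
  set z : B := c • y with hz
  have hzS : z ∈ S := S.smul_mem hy c
  have hz1 : ‖z‖ ≤ 1 := by
    rw [hz, norm_smul, hcn]
    calc (1 + ε)⁻¹ * ‖y‖ ≤ (1 + ε)⁻¹ * (1 + ε) :=
          mul_le_mul_of_nonneg_left hy1 (by positivity)
      _ = 1 := inv_mul_cancel₀ hc0.ne'
  have hyz : ‖y - z‖ ≤ ε := by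
    have e1 : y - z = (1 - c) • y := by rw [hz, sub_smul, one_smul]
    have e2 : ‖(1 : ℂ) - c‖ = ε * (1 + ε)⁻¹ := by
      have : (1 : ℂ) - c = ((ε * (1 + ε)⁻¹ : ℝ) : ℂ) := by
        rw [hc, ← Complex.ofReal_one, ← Complex.ofReal_sub]
        congr 1
        field_simp
        ring
      rw [this, Complex.norm_real, Real.norm_eq_abs, abs_of_pos (by positivity)]
    rw [e1, norm_smul, e2]
    calc ε * (1 + ε)⁻¹ * ‖y‖ ≤ ε * (1 + ε)⁻¹ * (1 + ε) :=
          mul_le_mul_of_nonneg_left hy1 (by positivity)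
      _ = ε := by field_simp
  have hqz : ‖q - z‖ ≤ 2 * ε := by
    calc ‖q - z‖ = ‖(q - y) + (y - z)‖ := by rw [sub_add_sub_cancel]
      _ ≤ ‖q - y‖ + ‖y - z‖ := norm_add_le _ _
      _ ≤ 2 * ε := by linarith
  refine ⟨star z * z, mul_mem (star_mem hzS) hzS, PC_star_mul_self hz1, ?_⟩
  have e : g - star z * z = star q * (q - z) + (star q - star z) * z := by
    rw [← hqq, hq]
    noncomm_ring
  rw [e]
  calc ‖star q * (q - z) + (star q - star z) * z‖
      ≤ ‖star q * (q - z)‖ + ‖(star q - star z) * z‖ := norm_add_le _ _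
    _ ≤ ‖star q‖ * ‖q - z‖ + ‖star q - star z‖ * ‖z‖ :=
        add_le_add (norm_mul_le _ _) (norm_mul_le _ _)
    _ ≤ 1 * (2 * ε) + (2 * ε) * 1 := by
        rw [← star_sub, norm_star, norm_star]
        refine add_le_add ?_ ?_
        · exact mul_le_mul hq1 hqz (norm_nonneg _) zero_le_one
        · exact mul_le_mul hqz hz1 (norm_nonneg _) (by positivity)
    _ = 4 * ε := by ring

theorem trace_close {τ : B →ₗ[ℂ] ℂ} (hτ : FTS τ) {g g' : B} (hg : PC g) (hg' : PC g') {δ : ℝ}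
    (h : ‖g - g'‖ ≤ δ) : (τ (g' * g')).re ≤ (τ (g * g)).re + 2 * δ := by
  have h1 : ‖τ (g' * g' - g * g)‖ ≤ 2 * δ := by
    refine (hτ.bound _).trans ?_
    have e : g' * g' - g * g = g' * (g' - g) + (g' - g) * g := by noncomm_ring
    rw [e]
    have h2 : ‖g' - g‖ ≤ δ := by rw [norm_sub_rev]; exact h
    have hδ : 0 ≤ δ := (norm_nonneg _).trans h
    calc ‖g' * (g' - g) + (g' - g) * g‖ ≤ ‖g' * (g' - g)‖ + ‖(g' - g) * g‖ := norm_add_le _ _
      _ ≤ ‖g'‖ * ‖g' - g‖ + ‖g' - g‖ * ‖g‖ := add_le_add (norm_mul_le _ _) (norm_mul_le _ _)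
      _ ≤ 1 * δ + δ * 1 := by
          refine add_le_add ?_ ?_
          · exact mul_le_mul (norm_le_of_PC hg') h2 (norm_nonneg _) zero_le_one
          · exact mul_le_mul h2 (norm_le_of_PC hg) (norm_nonneg _) hδ
      _ = 2 * δ := by ring
  rw [map_sub] at h1
  have h3 := (Complex.abs_re_le_norm _).trans h1
  rw [Complex.sub_re] at h3
  have := (abs_le.1 h3).2
  linarith

theorem PC_conj {g : B} (h : PC g) (u : unitary B) : PC ((u : B) * g * star (u : B)) := by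
  obtain ⟨q, hq, hqq, hq1⟩ := exists_sqrt h
  have e : (u : B) * g * star (u : B) = star (q * star (u : B)) * (q * star (u : B)) := by
    rw [star_mul, star_star, hq, ← hqq]
    noncomm_ring
  rw [e]
  apply PC_star_mul_self
  rw [CStarRing.norm_mul_mem_unitary q (Unitary.star_mem u.2)]
  exact hq1

theorem t_FCB (hFR2 : S_FR2) (hCJF : S_CJF) : S_FCB := by
  intro B _ τ hτ hHU g r hg hr hθ
  obtain ⟨q, hq, hqq, hq1⟩ := exists_sqrt hg
  obtain ⟨p, hp, hpp, hp1⟩ := exists_sqrt hr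
  set t : ℝ := 1 - ((τ (g * g)).re + (τ (r * r)).re) with ht
  have ht0 : 0 < t := by linarith
  set ε : ℝ := min (t / 32) (t ^ 2 / 40000) with hε
  have hε0 : 0 < ε := lt_min (by positivity) (by positivity)
  have hε1 : ε ≤ t / 32 := min_le_left _ _
  have hε2 : ε ≤ t ^ 2 / 40000 := min_le_right _ _
  classical
  obtain ⟨S, u, hcl, hu, hfree, hap⟩ := hHU {q, p} ε hε0
  obtain ⟨y, hy, hqy⟩ := hap q (by simp)
  obtain ⟨y', hy', hpy⟩ := hap p (by simp)
  obtain ⟨g', hg'S, hg', hgg'⟩ := approx hq hqq hq1 hε0 hy hqy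
  obtain ⟨r', hr'S, hr', hrr'⟩ := approx hp hpp hp1 hε0 hy' hpy
  refine ⟨u, ?_⟩
  have h1 := trace_close hτ hg hg' hgg'
  have h2 := trace_close hτ hr hr' hrr'
  -- the conjugated element
  set k : B := (u : B) * r' * star (u : B) with hk
  have hkPC : PC k := PC_conj hr' u
  have hkS : k ∈ S.map ((Unitary.conjStarAlgAut ℂ B u : B ≃⋆ₐ[ℂ] B) : B →⋆ₐ[ℂ] B) := by
    refine StarSubalgebra.mem_map.2 ⟨r', hr'S, ?_⟩
    exact Unitary.conjStarAlgAut_apply (S := ℂ) (R := B) u r'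
  have huu : star (u : B) * (u : B) = 1 := Unitary.coe_star_mul_self u
  have hkk : τ (k * k) = τ (r' * r') := by
    have e : k * k = (u : B) * (r' * r' * star (u : B)) := by
      rw [hk]
      calc (u : B) * r' * star (u : B) * ((u : B) * r' * star (u : B))
          = (u : B) * r' * (star (u : B) * (u : B)) * r' * star (u : B) := by noncomm_ring
        _ = (u : B) * (r' * r' * star (u : B)) := by rw [huu]; noncomm_ring
    rw [e, hτ.comm]
    congr 1
    calc r' * r' * star (u : B) * (u : B) = r' * r' * (star (u : B) * (u : B)) := by noncomm_ring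
      _ = r' * r' := by rw [huu, mul_one]
  have hth : (τ (g' * g')).re + (τ (k * k)).re ≤ 1 - t / 2 := by
    rw [hkk]
    linarith
  have h3 := hFR2 B τ hτ S _ (hCJF B τ hτ S u hu hfree) g' hg'S k hkS hg' hkPC (by linarith)
  have h4 : ‖g' * k‖ ≤ 1 - t ^ 2 / 4000 := by
    refine h3.trans ?_
    have h5 : t / 2 ≤ 1 - (τ (g' * g')).re - (τ (k * k)).re := by linarith
    have h6 : (t / 2) ^ 2 ≤ (1 - (τ (g' * g')).re - (τ (k * k)).re) ^ 2 :=
      pow_le_pow_left₀ (by positivity) h5 2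
    nlinarith
  have h5 : ‖g' * (u : B) * r'‖ = ‖g' * k‖ := by
    have e : g' * k = (g' * (u : B) * r') * star (u : B) := by rw [hk]; noncomm_ring
    rw [e, CStarRing.norm_mul_mem_unitary _ (Unitary.star_mem u.2)]
  have e : g * (u : B) * r = (g - g') * (u : B) * r + g' * (u : B) * (r - r') +
      g' * (u : B) * r' := by noncomm_ring
  have h6 : ‖(g - g') * (u : B) * r‖ ≤ 4 * ε := by
    calc ‖(g - g') * (u : B) * r‖ ≤ ‖(g - g') * (u : B)‖ * ‖r‖ := norm_mul_le _ _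
      _ = ‖g - g'‖ * ‖r‖ := by rw [CStarRing.norm_mul_coe_unitary]
      _ ≤ (4 * ε) * 1 := mul_le_mul hgg' (norm_le_of_PC hr) (norm_nonneg _) (by positivity)
      _ = 4 * ε := mul_one _
  have h7 : ‖g' * (u : B) * (r - r')‖ ≤ 4 * ε := by
    calc ‖g' * (u : B) * (r - r')‖ ≤ ‖g' * (u : B)‖ * ‖r - r'‖ := norm_mul_le _ _
      _ = ‖g'‖ * ‖r - r'‖ := by rw [CStarRing.norm_mul_coe_unitary]
      _ ≤ 1 * (4 * ε) := mul_le_mul (norm_le_of_PC hg') hrr' (norm_nonneg _) zero_le_one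
      _ = 4 * ε := one_mul _
  calc ‖g * (u : B) * r‖ = ‖(g - g') * (u : B) * r + g' * (u : B) * (r - r') +
      g' * (u : B) * r'‖ := by rw [← e]
    _ ≤ ‖(g - g') * (u : B) * r + g' * (u : B) * (r - r')‖ + ‖g' * (u : B) * r'‖ :=
        norm_add_le _ _
    _ ≤ (‖(g - g') * (u : B) * r‖ + ‖g' * (u : B) * (r - r')‖) + ‖g' * (u : B) * r'‖ :=
        add_le_add (norm_add_le _ _) le_rfl
    _ ≤ (4 * ε + 4 * ε) + (1 - t ^ 2 / 4000) := by
        rw [h5]
        exact add_le_add (add_le_add h6 h7) h4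
    _ < 1 := by
        have : 0 < t ^ 2 := by positivity
        linarith

end Pool.Agent.H923R2.FZ.T_FCB
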