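import Mathlib

set_option autoImplicit false

set_option linter.unusedSectionVars false
set_option linter.unusedVariables false

namespace Pool.Agent.H991R2.TriGeom

open Finset

variable {V : Type*} [DecidableEq V] {E : Type*} [AddCommGroup E] [Module ℝ E] (pos : V → E)

/-- `y` is a convex combination of the positions of the elements of `t`. -/
def H (t : Finset V) (y : E) : Prop :=
  ∃ w : V → ℝ, (∀ v, 0 ≤ w v) ∧ (∀ v, v ∉ t → w v = 0) ∧ ∑ v ∈ t, w v = 1 ∧
    ∑ v ∈ t, w v • pos v = y

/-- the positions of the elements of `t` are affinely independent -/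
def Ind (t : Finset V) : Prop :=
  ∀ w : V → ℝ, (∀ v, v ∉ t → w v = 0) → ∑ v ∈ t, w v = 0 → ∑ v ∈ t, w v • pos v = 0 →
    ∀ v, w v = 0

variable {pos}

theorem H_mono {s t : Finset V} (h : s ⊆ t) {y : E} (hy : H pos s y) : H pos t y := by
  obtain ⟨w, h0, h1, h2, h3⟩ := hy
  refine ⟨w, h0, fun v hv => h1 v (fun hs => hv (h hs)), ?_, ?_⟩
  · rw [← h2]
    exact (Finset.sum_subset h fun v _ hv => h1 v hv).symm
  · rw [← h3]
    refine (Finset.sum_subset h fun v _ hv => ?_).symm
    rw [h1 v hv, zero_smul]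

theorem not_H_empty {y : E} : ¬ H pos ∅ y := by
  rintro ⟨w, h0, h1, h2, h3⟩
  simp at h2

theorem H_inter {t s s' : Finset V} (ht : Ind pos t) (hs : s ⊆ t) (hs' : s' ⊆ t) {y : E}
    (h : H pos s y) (h' : H pos s' y) : H pos (s ∩ s') y := by
  obtain ⟨w, h0, h1, h2, h3⟩ := h
  obtain ⟨w', h0', h1', h2', h3'⟩ := h'
  have e1 : ∑ v ∈ t, w v = 1 := by
    rw [← h2]; exact (Finset.sum_subset hs fun v _ hv => h1 v hv).symm
  have e2 : ∑ v ∈ t, w' v = 1 := by
    rw [← h2']; exact (Finset.sum_subset hs' fun v _ hv => h1' v hv).symm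
  have e3 : ∑ v ∈ t, w v • pos v = y := by
    rw [← h3]
    refine (Finset.sum_subset hs fun v _ hv => ?_).symm
    rw [h1 v hv, zero_smul]
  have e4 : ∑ v ∈ t, w' v • pos v = y := by
    rw [← h3']
    refine (Finset.sum_subset hs' fun v _ hv => ?_).symm
    rw [h1' v hv, zero_smul]
  have key := ht (fun v => w v - w' v) (fun v hv => by
    show w v - w' v = 0
    rw [h1 v (fun h => hv (hs h)), h1' v (fun h => hv (hs' h)), sub_zero])
    (by rw [Finset.sum_sub_distrib, e1, e2, sub_self])
    (by simp only [sub_smul, Finset.sum_sub_distrib, e3, e4, sub_self])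
  have hww : ∀ v, w v = w' v := fun v => sub_eq_zero.1 (key v)
  have hz : ∀ v, v ∉ s ∩ s' → w v = 0 := by
    intro v hv
    rw [Finset.mem_inter, not_and_or] at hv
    rcases hv with hv | hv
    · exact h1 v hv
    · rw [hww]; exact h1' v hv
  refine ⟨w, h0, hz, ?_, ?_⟩
  · rw [← h2]
    exact Finset.sum_subset Finset.inter_subset_left fun v _ hv => hz v hv
  · rw [← h3]
    refine Finset.sum_subset Finset.inter_subset_left fun v _ hv => ?_
    rw [hz v hv, zero_smul]

theorem Ind_mono {s t : Finset V} (h : s ⊆ t) (ht : Ind pos t) : Ind pos s := by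
  intro w h1 h2 h3
  apply ht w (fun v hv => h1 v (fun hs => hv (h hs)))
  · rw [← h2]
    exact (Finset.sum_subset h fun v _ hv => h1 v hv).symm
  · rw [← h3]
    refine (Finset.sum_subset h fun v _ hv => ?_).symm
    rw [h1 v hv, zero_smul]

theorem sum3 {M : Type*} [AddCommMonoid M] {a b c : V} (hab : a ≠ b) (hbc : b ≠ c) (hca : c ≠ a)
    (f : V → M) : ∑ v ∈ ({a, b, c} : Finset V), f v = f a + f b + f c := by
  rw [Finset.sum_insert, Finset.sum_insert, Finset.sum_singleton, add_assoc]
  · simpa using hbc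
  · simp only [Finset.mem_insert, Finset.mem_singleton, not_or]
    exact ⟨hab, hca.symm⟩

theorem H3 {a b c : V} (hab : a ≠ b) (hbc : b ≠ c) (hca : c ≠ a) {y : E} :
    H pos {a, b, c} y ↔ ∃ α β γ : ℝ, 0 ≤ α ∧ 0 ≤ β ∧ 0 ≤ γ ∧ α + β + γ = 1 ∧
      α • pos a + β • pos b + γ • pos c = y := by
  constructor
  · rintro ⟨w, h0, h1, h2, h3⟩
    rw [sum3 hab hbc hca] at h2 h3
    exact ⟨w a, w b, w c, h0 a, h0 b, h0 c, h2, h3⟩
  · rintro ⟨α, β, γ, hα, hβ, hγ, h1, h2⟩
    refine ⟨fun v => if v = a then α else if v = b then β else if v = c then γ else 0, ?_, ?_, ?_,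
      ?_⟩
    · intro v
      dsimp only
      split_ifs <;> first | assumption | exact le_rfl
    · intro v hv
      simp only [Finset.mem_insert, Finset.mem_singleton, not_or] at hv
      simp [hv.1, hv.2.1, hv.2.2]
    · rw [sum3 hab hbc hca]
      simp [hab.symm, hca, hbc.symm, h1]
    · rw [sum3 hab hbc hca]
      simp [hab.symm, hca, hbc.symm, h2]

theorem H2 {a b : V} (hab : a ≠ b) {y : E} {α β : ℝ} (hα : 0 ≤ α) (hβ : 0 ≤ β) (h : α + β = 1)
    (hy : α • pos a + β • pos b = y) : H pos {a, b} y := by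
  refine ⟨fun v => if v = a then α else if v = b then β else 0, ?_, ?_, ?_, ?_⟩
  · intro v
    dsimp only
    split_ifs <;> first | assumption | exact le_rfl
  · intro v hv
    simp only [Finset.mem_insert, Finset.mem_singleton, not_or] at hv
    simp [hv.1, hv.2]
  · rw [Finset.sum_pair hab]; simp [hab.symm, h]
  · rw [Finset.sum_pair hab]; simp [hab.symm, hy]

theorem Ind3 {a b c : V} (hab : a ≠ b) (hbc : b ≠ c) (hca : c ≠ a) :
    Ind pos {a, b, c} ↔ ∀ α β γ : ℝ, α + β + γ = 0 → α • pos a + β • pos b + γ • pos c = 0 →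
      α = 0 ∧ β = 0 ∧ γ = 0 := by
  constructor
  · intro h α β γ h1 h2
    have key := h (fun v => if v = a then α else if v = b then β else if v = c then γ else 0)
      (by
        intro v hv
        simp only [Finset.mem_insert, Finset.mem_singleton, not_or] at hv
        simp [hv.1, hv.2.1, hv.2.2])
      (by rw [sum3 hab hbc hca]; simp [hab.symm, hca, hbc.symm, h1])
      (by rw [sum3 hab hbc hca]; simp [hab.symm, hca, hbc.symm, h2])
    refine ⟨?_, ?_, ?_⟩
    · simpa using key a
    · simpa [hab.symm] using key b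
    · simpa [hca, hbc.symm] using key c
  · intro h w h1 h2 h3
    rw [sum3 hab hbc hca] at h2 h3
    obtain ⟨ha, hb, hc⟩ := h _ _ _ h2 h3
    intro v
    by_cases hv : v ∈ ({a, b, c} : Finset V)
    · simp only [Finset.mem_insert, Finset.mem_singleton] at hv
      rcases hv with rfl | rfl | rfl <;> assumption
    · exact h1 v hv

/-- `x` lies inside the nondegenerate triangle `a b c`, with barycentric coordinates `p, q, r`. -/
structure Stel (pos : V → E) (a b c x : V) (p q r : ℝ) : Prop where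
  hab : a ≠ b
  hbc : b ≠ c
  hca : c ≠ a
  hxa : x ≠ a
  hxb : x ≠ b
  hxc : x ≠ c
  hp : 0 < p
  hq : 0 < q
  hr : 0 < r
  hs : p + q + r = 1
  hx : pos x = p • pos a + q • pos b + r • pos c
  ind : Ind pos {a, b, c}

theorem rot3 (a b c : V) : ({b, c, a} : Finset V) = {a, b, c} := by
  ext v; simp only [Finset.mem_insert, Finset.mem_singleton]; tauto

namespace Stel

variable {a b c x : V} {p q r : ℝ}

theorem rot (h : Stel pos a b c x p q r) : Stel pos b c a x q r p where
  hab := h.hbc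
  hbc := h.hca
  hca := h.hab
  hxa := h.hxb
  hxb := h.hxc
  hxc := h.hxa
  hp := h.hq
  hq := h.hr
  hr := h.hp
  hs := by have := h.hs; linarith
  hx := by rw [h.hx]; abel
  ind := by rw [rot3]; exact h.ind

theorem uniq (h : Stel pos a b c x p q r) {α β γ α' β' γ' : ℝ} (h1 : α + β + γ = α' + β' + γ')
    (h2 : α • pos a + β • pos b + γ • pos c = α' • pos a + β' • pos b + γ' • pos c) :
    α = α' ∧ β = β' ∧ γ = γ' := by
  have := (Ind3 h.hab h.hbc h.hca).1 h.ind (α - α') (β - β') (γ - γ') (by linarith) (by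
    rw [← sub_eq_zero] at h2
    rw [← h2]; module)
  refine ⟨?_, ?_, ?_⟩ <;> linarith [this.1, this.2.1, this.2.2]

theorem expand (h : Stel pos a b c x p q r) (α β ξ : ℝ) :
    α • pos a + β • pos b + ξ • pos x =
      (α + ξ * p) • pos a + (β + ξ * q) • pos b + (ξ * r) • pos c := by
  rw [h.hx]; module

theorem ind1 (h : Stel pos a b c x p q r) : Ind pos {a, b, x} := by
  rw [Ind3 h.hab h.hxb.symm h.hxa]
  intro α β ξ h1 h2
  rw [h.expand] at h2
  have hs := h.hs
  have h3 := (Ind3 h.hab h.hbc h.hca).1 h.ind (α + ξ * p) (β + ξ * q) (ξ * r)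
    (by
      have : α + ξ * p + (β + ξ * q) + ξ * r = α + β + ξ * (p + q + r) := by ring
      rw [this, hs]; linarith) h2
  have hξ : ξ = 0 := by
    rcases mul_eq_zero.1 h3.2.2 with h4 | h4
    · exact h4
    · exact absurd h4 h.hr.ne'
  subst hξ
  refine ⟨?_, ?_, rfl⟩
  · simpa using h3.1
  · simpa using h3.2.1

theorem sub1 (h : Stel pos a b c x p q r) {y : E} (hy : H pos {a, b, x} y) :
    H pos {a, b, c} y := by
  rw [H3 h.hab h.hxb.symm h.hxa] at hy
  obtain ⟨α, β, ξ, hα, hβ, hξ, h1, h2⟩ := hy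
  rw [H3 h.hab h.hbc h.hca]
  have hp := h.hp
  have hq := h.hq
  have hr := h.hr
  refine ⟨α + ξ * p, β + ξ * q, ξ * r, by positivity, by positivity, by positivity, ?_, ?_⟩
  · have : α + ξ * p + (β + ξ * q) + ξ * r = α + β + ξ * (p + q + r) := by ring
    rw [this, h.hs]; linarith
  · rw [← h.expand, h2]

theorem inter1 (h : Stel pos a b c x p q r) {y : E} (hy : H pos {a, b, x} y)
    (hy' : H pos {b, c, x} y) : H pos {b, x} y := by
  rw [H3 h.hab h.hxb.symm h.hxa] at hy
  rw [H3 h.hbc h.hxc.symm h.hxb] at hy'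
  obtain ⟨α, β, ξ, hα, hβ, hξ, h1, h2⟩ := hy
  obtain ⟨β', γ', ξ', hβ', hγ', hξ', h1', h2'⟩ := hy'
  have hp := h.hp
  have hq := h.hq
  have hr := h.hr
  have hs := h.hs
  have e : (α + ξ * p) • pos a + (β + ξ * q) • pos b + (ξ * r) • pos c =
      (ξ' * p) • pos a + (β' + ξ' * q) • pos b + (γ' + ξ' * r) • pos c := by
    rw [← h.expand, h2, ← h2', h.hx]; module
  have s1 : α + ξ * p + (β + ξ * q) + ξ * r = ξ' * p + (β' + ξ' * q) + (γ' + ξ' * r) := by
    have t1 : α + ξ * p + (β + ξ * q) + ξ * r = α + β + ξ * (p + q + r) := by ring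
    have t2 : ξ' * p + (β' + ξ' * q) + (γ' + ξ' * r) = β' + γ' + ξ' * (p + q + r) := by ring
    rw [t1, t2, hs]; linarith
  obtain ⟨u1, u2, u3⟩ := h.uniq s1 e
  have k1 : ξ ≤ ξ' := by
    by_contra hc
    push Not at hc
    nlinarith [mul_pos (sub_pos.2 hc) hp]
  have k2 : ξ' ≤ ξ := by
    by_contra hc
    push Not at hc
    nlinarith [mul_pos (sub_pos.2 hc) hr]
  have hxx : ξ = ξ' := le_antisymm k1 k2
  subst hxx
  have hα0 : α = 0 := by linarith
  subst hα0
  exact H2 h.hxb.symm hβ hξ (by linarith) (by rw [← h2]; module)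

theorem side1 (h : Stel pos a b c x p q r) {σ : Finset V} (hσ : σ ⊆ {a, b, c})
    (hne : σ ≠ {a, b, c}) {y : E} (hy : H pos {a, b, x} y) (hy' : H pos σ y) :
    H pos ({a, b} ∩ σ) y := by
  rw [H3 h.hab h.hxb.symm h.hxa] at hy
  obtain ⟨α, β, ξ, hα, hβ, hξ, h1, h2⟩ := hy
  have hp := h.hp
  have hq := h.hq
  have hr := h.hr
  have hs := h.hs
  -- the weights of `y` in `σ`
  obtain ⟨w, w0, w1, w2, w3⟩ := hy'
  have e1 : ∑ v ∈ ({a, b, c} : Finset V), w v = 1 := by
    rw [← w2]; exact (Finset.sum_subset hσ fun v _ hv => w1 v hv).symm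
  have e2 : ∑ v ∈ ({a, b, c} : Finset V), w v • pos v = y := by
    rw [← w3]
    refine (Finset.sum_subset hσ fun v _ hv => ?_).symm
    rw [w1 v hv, zero_smul]
  rw [sum3 h.hab h.hbc h.hca] at e1 e2
  obtain ⟨u1, u2, u3⟩ := h.uniq (α := w a) (β := w b) (γ := w c) (α' := α + ξ * p)
    (β' := β + ξ * q) (γ' := ξ * r)
    (by
      have t1 : α + ξ * p + (β + ξ * q) + ξ * r = α + β + ξ * (p + q + r) := by ring
      rw [t1, hs]; linarith)
    (by rw [e2, ← h.expand, h2])
  have hξ0 : ξ = 0 := by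
    by_contra hc
    have hpos : 0 < ξ := lt_of_le_of_ne hξ (Ne.symm hc)
    apply hne
    apply Finset.Subset.antisymm hσ
    intro v hv
    by_contra hvs
    have hwv := w1 v hvs
    simp only [Finset.mem_insert, Finset.mem_singleton] at hv
    rcases hv with rfl | rfl | rfl
    · have := mul_pos hpos hp; linarith
    · have := mul_pos hpos hq; linarith
    · have := mul_pos hpos hr; linarith
  subst hξ0
  have hab : H pos {a, b} y := H2 h.hab hα hβ (by linarith) (by rw [← h2]; module)
  have hsub : ({a, b} : Finset V) ⊆ {a, b, c} := by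
    intro v hv; simp only [Finset.mem_insert, Finset.mem_singleton] at hv ⊢; tauto
  exact H_inter h.ind hsub hσ hab ⟨w, w0, w1, w2, w3⟩

theorem cover_aux (h : Stel pos a b c x p q r) {y : E} {l m n : ℝ} (hl : 0 ≤ l)
    (hm : 0 ≤ m) (hn : 0 ≤ n) (h1 : l + m + n = 1)
    (h2 : l • pos a + m • pos b + n • pos c = y) (c1 : n * p ≤ l * r) (c2 : n * q ≤ m * r) :
    H pos {a, b, x} y := by
  rw [H3 h.hab h.hxb.symm h.hxa]
  have hp := h.hp
  have hq := h.hq
  have hr := h.hr
  have hs := h.hs
  have e1 : (n / r) * p ≤ l := by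
    rw [div_mul_eq_mul_div, div_le_iff₀ hr]; exact c1
  have e2 : (n / r) * q ≤ m := by
    rw [div_mul_eq_mul_div, div_le_iff₀ hr]; exact c2
  have e3 : (n / r) * r = n := by field_simp
  refine ⟨l - (n / r) * p, m - (n / r) * q, n / r, by linarith, by linarith, by positivity, ?_, ?_⟩
  · have : l - n / r * p + (m - n / r * q) + n / r = l + m + n / r * (1 - p - q) := by ring
    rw [this, show (1 : ℝ) - p - q = r by linarith, e3]; exact h1
  · rw [h.expand, ← h2, e3]; module

theorem cover (h : Stel pos a b c x p q r) {y : E} (hy : H pos {a, b, c} y) :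
    H pos {a, b, x} y ∨ H pos {b, c, x} y ∨ H pos {c, a, x} y := by
  rw [H3 h.hab h.hbc h.hca] at hy
  obtain ⟨l, m, n, hl, hm, hn, h1, h2⟩ := hy
  have hp := h.hp
  have hq := h.hq
  have hr := h.hr
  -- compare the ratios l/p, m/q, n/r
  by_cases c1 : n * p ≤ l * r
  · by_cases c2 : n * q ≤ m * r
    · left; exact h.cover_aux hl hm hn h1 h2 c1 c2
    · push Not at c2
      -- m/q smallest : m / q < n / r ≤ l / p
      right; right
      refine h.rot.rot.cover_aux hn hl hm (by linarith) (by rw [← h2]; abel) c2.le ?_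
      -- m * p ≤ l * q
      by_contra hc
      push Not at hc
      -- m r < n q, n p ≤ l r, l q < m p
      have t1 : m * r * p < n * q * p := mul_lt_mul_of_pos_right c2 hp
      have t2 : n * p * q ≤ l * r * q := mul_le_mul_of_nonneg_right c1 hq.le
      have t3 : l * q * r < m * p * r := mul_lt_mul_of_pos_right hc hr
      nlinarith
  · push Not at c1
    by_cases c3 : l * q ≤ m * p
    · right; left
      refine h.rot.cover_aux hm hn hl (by linarith) (by rw [← h2]; abel) c3 c1.le
    · push Not at c3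
      right; right
      refine h.rot.rot.cover_aux hn hl hm (by linarith) (by rw [← h2]; abel) ?_ c3.le
      by_contra hc
      push Not at hc
      have t1 : l * r * q < n * p * q := mul_lt_mul_of_pos_right c1 hq
      have t2 : m * p * r < l * q * r := mul_lt_mul_of_pos_right c3 hr
      have t3 : n * q * p < m * r * p := mul_lt_mul_of_pos_right hc hp
      nlinarith

end Stel

/-- `S` is a triangulation of the triangle `τ` none of whose sides is subdivided. -/
structure Good (pos : V → E) (τ : Finset V) (S : Set (Finset V)) : Prop where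
  tri : ∀ t ∈ S, t.card = 3 ∧ Ind pos t
  cover : ∀ y, H pos τ y → ∃ t ∈ S, H pos t y
  sub : ∀ t ∈ S, ∀ y, H pos t y → H pos τ y
  inter : ∀ t ∈ S, ∀ t' ∈ S, ∀ y, H pos t y → H pos t' y → H pos (t ∩ t') y
  side : ∀ t ∈ S, ∀ σ ⊆ τ, σ ≠ τ → ∀ y, H pos t y → H pos σ y → H pos (t ∩ σ) y

theorem Good.single {τ : Finset V} (h : Ind pos τ) (hc : τ.card = 3) : Good pos τ {τ} where
  tri := by rintro t rfl; exact ⟨hc, h⟩
  cover := fun y hy => ⟨τ, rfl, hy⟩
  sub := by rintro t rfl y hy; exact hy
  inter := by rintro t rfl t' rfl y hy _; rwa [Finset.inter_self]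
  side := by
    rintro t rfl σ hσ _ y _ hy
    rwa [Finset.inter_eq_right.2 hσ]

theorem Good.compose {a b c x : V} {p q r : ℝ} (h : Stel pos a b c x p q r)
    {S1 S2 S3 : Set (Finset V)} (g1 : Good pos {a, b, x} S1) (g2 : Good pos {b, c, x} S2)
    (g3 : Good pos {c, a, x} S3) : Good pos {a, b, c} (S1 ∪ S2 ∪ S3) := by
  have r1 : ({b, c, a} : Finset V) = {a, b, c} := rot3 a b c
  have r2 : ({c, a, b} : Finset V) = {a, b, c} := by rw [← rot3 c a b]
  -- the common treatment of two neighbouring children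
  have nb : ∀ {a b c : V} {p q r : ℝ} {S T : Set (Finset V)}, Stel pos a b c x p q r →
      Good pos {a, b, x} S → Good pos {b, c, x} T → ∀ t ∈ S, ∀ t' ∈ T, ∀ y, H pos t y →
      H pos t' y → H pos (t ∩ t') y := by
    intro a b c p q r S T h gS gT t ht t' ht' y hy hy'
    have k := h.inter1 (gS.sub t ht y hy) (gT.sub t' ht' y hy')
    have s1 : ({b, x} : Finset V) ⊆ {a, b, x} := by
      intro v hv; simp only [Finset.mem_insert, Finset.mem_singleton] at hv ⊢; tauto
    have s2 : ({b, x} : Finset V) ⊆ {b, c, x} := by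
      intro v hv; simp only [Finset.mem_insert, Finset.mem_singleton] at hv ⊢; tauto
    have n1 : ({b, x} : Finset V) ≠ {a, b, x} := by
      intro e
      have : a ∈ ({b, x} : Finset V) := by rw [e]; simp
      simp only [Finset.mem_insert, Finset.mem_singleton] at this
      rcases this with h1 | h1
      · exact h.hab h1
      · exact h.hxa h1.symm
    have n2 : ({b, x} : Finset V) ≠ {b, c, x} := by
      intro e
      have : c ∈ ({b, x} : Finset V) := by rw [e]; simp
      simp only [Finset.mem_insert, Finset.mem_singleton] at this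
      rcases this with h1 | h1
      · exact h.hbc h1.symm
      · exact h.hxc h1.symm
    have k1 := gS.side t ht _ s1 n1 y hy k
    have k2 := gT.side t' ht' _ s2 n2 y hy' k
    have k3 := H_inter (Ind_mono s1 h.ind1) Finset.inter_subset_right Finset.inter_subset_right
      k1 k2
    refine H_mono ?_ k3
    intro v hv
    simp only [Finset.mem_inter] at hv ⊢
    tauto
  have sd : ∀ {a b c : V} {p q r : ℝ} {S : Set (Finset V)}, Stel pos a b c x p q r →
      Good pos {a, b, x} S → ∀ t ∈ S, ∀ σ ⊆ ({a, b, c} : Finset V), σ ≠ {a, b, c} → ∀ y,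
      H pos t y → H pos σ y → H pos (t ∩ σ) y := by
    intro a b c p q r S h gS t ht σ hσ hne y hy hy'
    have k := h.side1 hσ hne (gS.sub t ht y hy) hy'
    have s1 : ({a, b} ∩ σ : Finset V) ⊆ {a, b, x} := by
      intro v hv; simp only [Finset.mem_inter, Finset.mem_insert, Finset.mem_singleton] at hv ⊢
      tauto
    have n1 : ({a, b} ∩ σ : Finset V) ≠ {a, b, x} := by
      intro e
      have : x ∈ ({a, b} ∩ σ : Finset V) := by rw [e]; simp
      simp only [Finset.mem_inter, Finset.mem_insert, Finset.mem_singleton] at this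
      rcases this.1 with h1 | h1
      · exact h.hxa h1
      · exact h.hxb h1
    refine H_mono ?_ (gS.side t ht _ s1 n1 y hy k)
    intro v hv
    simp only [Finset.mem_inter] at hv ⊢
    tauto
  refine ⟨?_, ?_, ?_, ?_, ?_⟩
  · rintro t ((ht | ht) | ht)
    · exact g1.tri t ht
    · exact g2.tri t ht
    · exact g3.tri t ht
  · intro y hy
    rcases h.cover hy with hy | hy | hy
    · obtain ⟨t, ht, hty⟩ := g1.cover y hy
      exact ⟨t, Or.inl (Or.inl ht), hty⟩
    · obtain ⟨t, ht, hty⟩ := g2.cover y hy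
      exact ⟨t, Or.inl (Or.inr ht), hty⟩
    · obtain ⟨t, ht, hty⟩ := g3.cover y hy
      exact ⟨t, Or.inr ht, hty⟩
  · rintro t ((ht | ht) | ht) y hy
    · exact h.sub1 (g1.sub t ht y hy)
    · rw [← r1]; exact h.rot.sub1 (g2.sub t ht y hy)
    · rw [← r2]; exact h.rot.rot.sub1 (g3.sub t ht y hy)
  · rintro t ((ht | ht) | ht) t' ((ht' | ht') | ht') y hy hy'
    · exact g1.inter t ht t' ht' y hy hy'
    · exact nb h g1 g2 t ht t' ht' y hy hy'
    · rw [Finset.inter_comm]; exact nb h.rot.rot g3 g1 t' ht' t ht y hy' hy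
    · rw [Finset.inter_comm]; exact nb h g1 g2 t' ht' t ht y hy' hy
    · exact g2.inter t ht t' ht' y hy hy'
    · exact nb h.rot g2 g3 t ht t' ht' y hy hy'
    · exact nb h.rot.rot g3 g1 t ht t' ht' y hy hy'
    · rw [Finset.inter_comm]; exact nb h.rot g2 g3 t' ht' t ht y hy' hy
    · exact g3.inter t ht t' ht' y hy hy'
  · rintro t ((ht | ht) | ht) σ hσ hne y hy hy'
    · exact sd h g1 t ht σ hσ hne y hy hy'
    · rw [← r1] at hσ hne; exact sd h.rot g2 t ht σ hσ hne y hy hy'
    · rw [← r2] at hσ hne; exact sd h.rot.rot g3 t ht σ hσ hne y hy hy'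

end Pool.Agent.H991R2.TriGeom
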