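import Mathlib
import Pool.Agent.H991R2.TriGeom

set_option autoImplicit false
set_option linter.unusedSectionVars false
set_option linter.unusedVariables false

namespace Pool.Agent.H991R2.TriGeom

open Finset

variable {V : Type*} [DecidableEq V] {E : Type*} [AddCommGroup E] [Module ℝ E] {pos : V → E}

/-- the underlying set of a triple -/
def fs (τ : Fin 3 → V) : Finset V := {τ 0, τ 1, τ 2}

/-- the six triangles between a triangle `τ` and an inner triangle `η` -/
def face {α : Type*} (i : ℕ) (τ η : Fin 3 → α) : Fin 3 → α :=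
  if i = 2 then ![τ 0, τ 1, η 0]
  else if i = 3 then ![η 0, τ 1, η 1]
  else if i = 4 then ![τ 1, η 2, η 1]
  else if i = 5 then ![τ 1, τ 2, η 2]
  else if i = 6 then ![τ 2, τ 0, η 2]
  else ![η 2, τ 0, η 0]

/-- centroid -/
noncomputable def cen (τ : Fin 3 → E) : E := (1 / 3 : ℝ) • (τ 0 + τ 1 + τ 2)

/-- homothety with ratio `s` about the centroid -/
noncomputable def hm (s : ℝ) (τ : Fin 3 → E) : Fin 3 → E := fun r => cen τ + s • (τ r - cen τ)

theorem cen_hm (s : ℝ) (τ : Fin 3 → E) : cen (hm s τ) = cen τ := by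
  unfold hm cen; module

theorem hm_hm (s t : ℝ) (τ : Fin 3 → E) : hm s (hm t τ) = hm (s * t) τ := by
  funext r
  show cen (hm t τ) + s • (hm t τ r - cen (hm t τ)) = _
  rw [cen_hm]; unfold hm; module

theorem hm_one (τ : Fin 3 → E) : hm 1 τ = τ := by
  funext r; unfold hm; module

/-- the configuration: a nondegenerate triangle and its inner homothetic copy -/
structure Ann (pos : V → E) (τ η : Fin 3 → V) : Prop where
  nd : [τ 0, τ 1, τ 2, η 0, η 1, η 2].Nodup
  ind : Ind pos (fs τ)
  hη : (fun r => pos (η r)) = hm (1 / 4) (fun r => pos (τ r))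

namespace Ann

variable {τ η : Fin 3 → V}

theorem st1 (h : Ann pos τ η) : Stel pos (τ 0) (τ 1) (τ 2) (η 2) (1 / 4) (1 / 4) (1 / 2) := by
  have nd := h.nd
  simp only [List.nodup_cons, List.mem_cons, List.not_mem_nil, or_false, not_or, not_false_eq_true,
    List.nodup_nil, and_true] at nd
  have hx := congrFun h.hη 2
  simp only [hm, cen] at hx
  refine ⟨by tauto, by tauto, by tauto, by tauto, by tauto, by tauto, by norm_num, by norm_num,
    by norm_num, by norm_num, ?_, h.ind⟩
  rw [hx]; module

theorem st2 (h : Ann pos τ η) : Stel pos (τ 0) (τ 1) (η 2) (η 0) (3 / 8) (1 / 8) (1 / 2) := by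
  have nd := h.nd
  simp only [List.nodup_cons, List.mem_cons, List.not_mem_nil, or_false, not_or, not_false_eq_true,
    List.nodup_nil, and_true] at nd
  have hx := congrFun h.hη 0
  simp only [hm, cen] at hx
  refine ⟨by tauto, by tauto, by tauto, by tauto, by tauto, by tauto, by norm_num, by norm_num,
    by norm_num, by norm_num, ?_, h.st1.ind1⟩
  rw [hx, h.st1.hx]; module

theorem st3 (h : Ann pos τ η) : Stel pos (τ 1) (η 2) (η 0) (η 1) (1 / 3) (1 / 3) (1 / 3) := by
  have nd := h.nd
  simp only [List.nodup_cons, List.mem_cons, List.not_mem_nil, or_false, not_or, not_false_eq_true,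
    List.nodup_nil, and_true] at nd
  have hx := congrFun h.hη 1
  simp only [hm, cen] at hx
  refine ⟨by tauto, by tauto, by tauto, by tauto, by tauto, by tauto, by norm_num, by norm_num,
    by norm_num, by norm_num, ?_, h.st2.rot.ind1⟩
  rw [hx, h.st2.hx, h.st1.hx]; module

theorem ind_face (h : Ann pos τ η) {i : ℕ} (h2 : 2 ≤ i) (h7 : i ≤ 7) :
    Ind pos (fs (face i τ η)) := by
  interval_cases i
  · exact h.st2.ind1
  · have := h.st3.rot.rot.ind1
    simpa [face, fs] using this
  · have := h.st3.ind1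
    simpa [face, fs] using this
  · have := h.st1.rot.ind1
    simpa [face, fs] using this
  · have := h.st1.rot.rot.ind1
    simpa [face, fs] using this
  · have := h.st2.rot.rot.ind1
    simpa [face, fs] using this

theorem ind_hole (h : Ann pos τ η) : Ind pos (fs η) := by
  have := h.st3.rot.ind1
  rw [show fs η = ({η 2, η 0, η 1} : Finset V) by
    unfold fs; ext v; simp only [Finset.mem_insert, Finset.mem_singleton]; tauto]
  exact this

theorem good (h : Ann pos τ η) (S : ℕ → Set (Finset V)) (h0 : Good pos (fs η) (S 0))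
    (hS : ∀ i, 2 ≤ i → i ≤ 7 → Good pos (fs (face i τ η)) (S i)) :
    Good pos (fs τ) (S 0 ∪ ⋃ i ∈ Finset.Icc 2 7, S i) := by
  have g2 := hS 2 (by norm_num) (by norm_num)
  have g3 := hS 3 (by norm_num) (by norm_num)
  have g4 := hS 4 (by norm_num) (by norm_num)
  have g5 := hS 5 (by norm_num) (by norm_num)
  have g6 := hS 6 (by norm_num) (by norm_num)
  have g7 := hS 7 (by norm_num) (by norm_num)
  rw [show fs (face 2 τ η) = ({τ 0, τ 1, η 0} : Finset V) by simp [face, fs]] at g2
  rw [show fs (face 3 τ η) = ({η 0, τ 1, η 1} : Finset V) by simp [face, fs]] at g3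
  rw [show fs (face 4 τ η) = ({τ 1, η 2, η 1} : Finset V) by simp [face, fs]] at g4
  rw [show fs (face 5 τ η) = ({τ 1, τ 2, η 2} : Finset V) by simp [face, fs]] at g5
  rw [show fs (face 6 τ η) = ({τ 2, τ 0, η 2} : Finset V) by simp [face, fs]] at g6
  rw [show fs (face 7 τ η) = ({η 2, τ 0, η 0} : Finset V) by simp [face, fs]] at g7
  rw [show fs η = ({η 2, η 0, η 1} : Finset V) by
    unfold fs; ext v; simp only [Finset.mem_insert, Finset.mem_singleton]; tauto] at h0
  have k3 := Good.compose h.st3 g4 h0 g3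
  have k2 := Good.compose h.st2 g2 k3 g7
  have k1 := Good.compose h.st1 k2 g5 g6
  have e : S 2 ∪ (S 4 ∪ S 0 ∪ S 3) ∪ S 7 ∪ S 5 ∪ S 6 = S 0 ∪ ⋃ i ∈ Finset.Icc 2 7, S i := by
    ext t
    simp only [Set.mem_union, Set.mem_iUnion, Finset.mem_Icc, exists_prop]
    constructor
    · rintro ((((ht | ((ht | ht) | ht)) | ht) | ht) | ht)
      · exact Or.inr ⟨2, by norm_num, ht⟩
      · exact Or.inr ⟨4, by norm_num, ht⟩
      · exact Or.inl ht
      · exact Or.inr ⟨3, by norm_num, ht⟩
      · exact Or.inr ⟨7, by norm_num, ht⟩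
      · exact Or.inr ⟨5, by norm_num, ht⟩
      · exact Or.inr ⟨6, by norm_num, ht⟩
    · rintro (ht | ⟨i, ⟨hi2, hi7⟩, ht⟩)
      · tauto
      · interval_cases i <;> tauto
  rw [← e]
  exact k1

end Ann

/-- the six faces of the annulus -/
def annF (τ η : Fin 3 → V) : Set (Finset V) := ⋃ i ∈ Finset.Icc 2 7, {fs (face i τ η)}

theorem card_fs {τ : Fin 3 → V} (h : [τ 0, τ 1, τ 2].Nodup) : (fs τ).card = 3 := by
  simp only [List.nodup_cons, List.mem_cons, List.not_mem_nil, or_false, not_or, not_false_eq_true,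
    List.nodup_nil, and_true] at h
  exact Finset.card_eq_three.2 ⟨τ 0, τ 1, τ 2, by tauto, by tauto, by tauto, rfl⟩

theorem Ann.nodup_face {τ η : Fin 3 → V} (h : Ann pos τ η) {i : ℕ} (h2 : 2 ≤ i) (h7 : i ≤ 7) :
    [face i τ η 0, face i τ η 1, face i τ η 2].Nodup := by
  have nd := h.nd
  simp only [List.nodup_cons, List.mem_cons, List.not_mem_nil, or_false, not_or, not_false_eq_true,
    List.nodup_nil, and_true] at nd
  interval_cases i <;>
    simp only [face, List.nodup_cons, List.mem_cons, List.not_mem_nil, or_false, not_or,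
      not_false_eq_true, List.nodup_nil, and_true] <;> norm_num <;> tauto

theorem Ann.good_leaf {τ η : Fin 3 → V} (h : Ann pos τ η) {S : Set (Finset V)}
    (h0 : Good pos (fs η) S) : Good pos (fs τ) (S ∪ annF τ η) := by
  have := h.good (fun i => if i = 0 then S else {fs (face i τ η)}) (by simpa using h0) (by
    intro i h2 h7
    have hi : i ≠ 0 := by omega
    simp only [hi, if_false]
    exact Good.single (h.ind_face h2 h7) (card_fs (h.nodup_face h2 h7)))
  have e : (S ∪ annF τ η) = ((fun i => if i = 0 then S else {fs (face i τ η)}) 0 ∪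
      ⋃ i ∈ Finset.Icc 2 7, (fun i => if i = 0 then S else {fs (face i τ η)}) i) := by
    ext t
    simp only [annF, Set.mem_union, Set.mem_iUnion, Finset.mem_Icc, exists_prop, if_true]
    constructor
    · rintro (ht | ⟨i, hi, ht⟩)
      · exact Or.inl ht
      · refine Or.inr ⟨i, hi, ?_⟩
        have : i ≠ 0 := by omega
        simpa [this] using ht
    · rintro (ht | ⟨i, hi, ht⟩)
      · exact Or.inl ht
      · refine Or.inr ⟨i, hi, ?_⟩
        have : i ≠ 0 := by omega
        simpa [this] using ht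
  rw [e]; exact this

end Pool.Agent.H991R2.TriGeom
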