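import Mathlib
import Pool.Agent.H991R2.TriAnn

set_option autoImplicit false
set_option linter.unusedSectionVars false
set_option linter.unusedVariables false

namespace Pool.Agent.H991R2.TriGeom

open Finset

/-- the plane -/
abbrev Pl : Type := EuclideanSpace ℝ (Fin 2)

/-- the vertex set -/
abbrev VV : Type := ℕ × Fin 3

/-- `11...1` (`k` digits) in base 8 -/
def xx : ℕ → ℕ
  | 0 => 0
  | k + 1 => 8 ^ k + xx k

/-- the triple of vertices with index `e` -/
def T (e : ℕ) : Fin 3 → VV := fun r => (e, r)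

noncomputable def bs : Fin 3 → Pl := ![!₂[(1 : ℝ), 0], !₂[(0 : ℝ), 1], !₂[(-1 : ℝ), -1]]

section geo

variable {E : Type*} [AddCommGroup E] [Module ℝ E]

noncomputable def shr (k : ℕ) (τ : Fin 3 → E) : Fin 3 → E := hm ((1 / 4 : ℝ) ^ (2 ^ k - 1)) τ

noncomputable def child (k i : ℕ) (τ : Fin 3 → E) : Fin 3 → E :=
  if i = 1 then τ
  else if i = 0 then hm (1 / 4) (shr k τ)
  else hm (1 / 4) (face i (shr k τ) (hm (1 / 4) (shr k τ)))

/-- affine independence of a triple -/
def ND (τ : Fin 3 → E) : Prop :=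
  ∀ α β γ : ℝ, α + β + γ = 0 → α • τ 0 + β • τ 1 + γ • τ 2 = 0 → α = 0 ∧ β = 0 ∧ γ = 0

theorem ND_hm {τ : Fin 3 → E} (h : ND τ) {s : ℝ} (hs : s ≠ 0) : ND (hm s τ) := by
  intro α β γ h1 h2
  have h3 := h (s * α) (s * β) (s * γ) (by rw [← mul_add, ← mul_add, h1, mul_zero]) (by
    have e : α • hm s τ 0 + β • hm s τ 1 + γ • hm s τ 2 =
        (α + β + γ) • ((1 - s) • cen τ) + ((s * α) • τ 0 + (s * β) • τ 1 + (s * γ) • τ 2) := by
      unfold hm; module
    rw [h2, h1, zero_smul, zero_add] at e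
    exact e.symm)
  refine ⟨?_, ?_, ?_⟩
  · exact (mul_eq_zero.1 h3.1).resolve_left hs
  · exact (mul_eq_zero.1 h3.2.1).resolve_left hs
  · exact (mul_eq_zero.1 h3.2.2).resolve_left hs

theorem ND_face {τ : Fin 3 → E} (h : ND τ) (i : ℕ) : ND (face i τ (hm (1 / 4) τ)) := by
  have h0 : hm (1 / 4) τ 0 = (1 / 2 : ℝ) • τ 0 + (1 / 4 : ℝ) • τ 1 + (1 / 4 : ℝ) • τ 2 := by
    unfold hm cen; module
  have h1 : hm (1 / 4) τ 1 = (1 / 4 : ℝ) • τ 0 + (1 / 2 : ℝ) • τ 1 + (1 / 4 : ℝ) • τ 2 := by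
    unfold hm cen; module
  have h2 : hm (1 / 4) τ 2 = (1 / 4 : ℝ) • τ 0 + (1 / 4 : ℝ) • τ 1 + (1 / 2 : ℝ) • τ 2 := by
    unfold hm cen; module
  unfold face
  split_ifs
  · intro α β γ s1 s2
    simp only [Matrix.cons_val] at s2
    rw [h0] at s2
    have := h (α + γ / 2) (β + γ / 4) (γ / 4) (by linarith) (by rw [← s2]; module)
    refine ⟨?_, ?_, ?_⟩ <;> linarith [this.1, this.2.1, this.2.2]
  · intro α β γ s1 s2
    simp only [Matrix.cons_val] at s2
    rw [h0, h1] at s2
    have := h (α / 2 + γ / 4) (β + α / 4 + γ / 2) (α / 4 + γ / 4) (by linarith)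
      (by rw [← s2]; module)
    refine ⟨?_, ?_, ?_⟩ <;> linarith [this.1, this.2.1, this.2.2]
  · intro α β γ s1 s2
    simp only [Matrix.cons_val] at s2
    rw [h2, h1] at s2
    have := h (β / 4 + γ / 4) (α + β / 4 + γ / 2) (β / 2 + γ / 4) (by linarith)
      (by rw [← s2]; module)
    refine ⟨?_, ?_, ?_⟩ <;> linarith [this.1, this.2.1, this.2.2]
  · intro α β γ s1 s2
    simp only [Matrix.cons_val] at s2
    rw [h2] at s2
    have := h (γ / 4) (α + γ / 4) (β + γ / 2) (by linarith)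
      (by rw [← s2]; module)
    refine ⟨?_, ?_, ?_⟩ <;> linarith [this.1, this.2.1, this.2.2]
  · intro α β γ s1 s2
    simp only [Matrix.cons_val] at s2
    rw [h2] at s2
    have := h (β + γ / 4) (γ / 4) (α + γ / 2) (by linarith)
      (by rw [← s2]; module)
    refine ⟨?_, ?_, ?_⟩ <;> linarith [this.1, this.2.1, this.2.2]
  · intro α β γ s1 s2
    simp only [Matrix.cons_val] at s2
    rw [h2, h0] at s2
    have := h (α / 4 + β + γ / 2) (α / 4 + γ / 4) (α / 2 + γ / 4) (by linarith)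
      (by rw [← s2]; module)
    refine ⟨?_, ?_, ?_⟩ <;> linarith [this.1, this.2.1, this.2.2]

theorem ND_child {τ : Fin 3 → E} (h : ND τ) (k i : ℕ) : ND (child k i τ) := by
  have hs : ND (shr k τ) := ND_hm h (by positivity)
  unfold child
  split_ifs
  · exact h
  · exact ND_hm hs (by norm_num)
  · exact ND_hm (ND_face hs i) (by norm_num)

end geo

/-- the positions of the exit triangle of the cell `(k, u)` -/
noncomputable def tri (k u : ℕ) : Fin 3 → Pl :=
  if h : u = 0 then fun r => (4 : ℝ) ^ (2 ^ k - 1) • bs r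
  else child k (u % 8) (tri (k + 1) (u / 8))
termination_by u
decreasing_by exact Nat.div_lt_self (Nat.pos_of_ne_zero h) (by norm_num)

theorem bs_sum : bs 0 + bs 1 + bs 2 = 0 := by
  unfold bs
  ext i
  fin_cases i <;> simp

theorem tri_zero (k : ℕ) : tri k 0 = fun r => (4 : ℝ) ^ (2 ^ k - 1) • bs r := by
  rw [tri]; simp

theorem cen_tri_zero (k : ℕ) : cen (tri k 0) = 0 := by
  rw [tri_zero]
  unfold cen
  rw [← smul_add, ← smul_add, bs_sum, smul_zero, smul_zero]

theorem hm_tri_zero (s : ℝ) (k : ℕ) : hm s (tri k 0) = fun r => (s * (4 : ℝ) ^ (2 ^ k - 1)) • bs r := by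
  funext r
  unfold hm
  rw [cen_tri_zero, sub_zero, zero_add, tri_zero, smul_smul]

theorem tri_rec (k u : ℕ) : tri k u = child k (u % 8) (tri (k + 1) (u / 8)) := by
  by_cases h : u = 0
  · subst h
    rw [tri_zero]
    simp only [Nat.zero_mod, Nat.zero_div, child, if_neg (show (0 : ℕ) ≠ 1 by norm_num), if_true]
    rw [shr, hm_hm, hm_tri_zero]
    funext r
    congr 1
    have h1 : 1 ≤ 2 ^ k := Nat.one_le_two_pow
    have e : 2 ^ (k + 1) - 1 = (2 ^ k - 1) + (1 + (2 ^ k - 1)) := by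
      rw [pow_succ]; omega
    rw [e, pow_add, pow_add, pow_one]
    have e2 : (1 / 4 : ℝ) ^ (2 ^ k - 1) * (4 : ℝ) ^ (2 ^ k - 1) = 1 := by
      rw [← mul_pow]; norm_num
    calc (4 : ℝ) ^ (2 ^ k - 1) = ((1 / 4 : ℝ) ^ (2 ^ k - 1) * (4 : ℝ) ^ (2 ^ k - 1)) * (4 : ℝ) ^ (2 ^ k - 1) := by
          rw [e2, one_mul]
      _ = _ := by ring
  · rw [tri]; simp [h]

theorem tri_digit (k U i : ℕ) (hi : i < 8) : tri k (8 * U + i) = child k i (tri (k + 1) U) := by
  rw [tri_rec]
  congr 1
  · omega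
  · congr 1; omega

theorem ND_tri : ∀ u k : ℕ, ND (tri k u) := by
  intro u
  induction u using Nat.strong_induction_on with
  | _ u ih =>
    intro k
    by_cases h : u = 0
    · subst h
      rw [tri_zero]
      intro α β γ h1 h2
      have hne : (4 : ℝ) ^ (2 ^ k - 1) ≠ 0 := by positivity
      have h3 : α • bs 0 + β • bs 1 + γ • bs 2 = 0 := by
        have e : α • (4 : ℝ) ^ (2 ^ k - 1) • bs 0 + β • (4 : ℝ) ^ (2 ^ k - 1) • bs 1 +
            γ • (4 : ℝ) ^ (2 ^ k - 1) • bs 2 =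
            (4 : ℝ) ^ (2 ^ k - 1) • (α • bs 0 + β • bs 1 + γ • bs 2) := by module
        rw [e] at h2
        exact (smul_eq_zero.1 h2).resolve_left hne
      have k0 := congrArg (fun v : Pl => v 0) h3
      have k1 := congrArg (fun v : Pl => v 1) h3
      simp [bs] at k0 k1
      refine ⟨?_, ?_, ?_⟩ <;> linarith
    · rw [tri_rec]
      exact ND_child (ih _ (Nat.div_lt_self (Nat.pos_of_ne_zero h) (by norm_num)) _) _ _

noncomputable def pos (v : VV) : Pl := tri 0 v.1 v.2

theorem posX (k : ℕ) : ∀ u, (fun r => pos (T (u * 8 ^ k + xx k) r)) = tri k u := by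
  induction k with
  | zero => intro u; simp [xx, T, pos]
  | succ k ih =>
    intro u
    have e : u * 8 ^ (k + 1) + xx (k + 1) = (8 * u + 1) * 8 ^ k + xx k := by
      simp only [xx, pow_succ]; ring
    rw [e, ih, tri_digit _ _ _ (by norm_num)]
    simp [child]

theorem posY (k : ℕ) : ∀ u, (fun r => pos (T (u * 8 ^ k) r)) = shr k (tri k u) := by
  induction k with
  | zero => intro u; simp [T, pos, shr, hm_one]
  | succ k ih =>
    intro u
    have e : u * 8 ^ (k + 1) = (8 * u + 0) * 8 ^ k := by rw [pow_succ]; ring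
    rw [e, ih, tri_digit _ _ _ (by norm_num)]
    simp only [child, if_neg (show (0 : ℕ) ≠ 1 by norm_num), if_true, shr, hm_hm]
    congr 1
    have h1 : 1 ≤ 2 ^ k := Nat.one_le_two_pow
    have e : 2 ^ (k + 1) - 1 = (2 ^ k - 1) + (1 + (2 ^ k - 1)) := by
      rw [pow_succ]; omega
    rw [e, pow_add, pow_add, pow_one]

/-- parent of the junction `(k, U)` -/
def jp (k U : ℕ) : ℕ := (8 * U + 1) * 8 ^ k

/-- children of the junction `(k, U)` (`i ≠ 1`) -/
def jc (k U i : ℕ) : ℕ := (8 * U + i) * 8 ^ k + xx k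

theorem xx_lt (k : ℕ) : 7 * xx k + 1 = 8 ^ k := by
  induction k with
  | zero => simp [xx]
  | succ k ih => simp only [xx, pow_succ]; omega

theorem jc_ne_jp (k U i : ℕ) (hi : i < 8) (h1 : i ≠ 1) : jc k U i ≠ jp k U := by
  unfold jc jp
  intro e
  have h := xx_lt k
  have hp : 0 < 8 ^ k := by positivity
  rcases Nat.lt_or_ge i 1 with h2 | h2
  · have : i = 0 := by omega
    subst this
    have : (8 * U + 1) * 8 ^ k = (8 * U) * 8 ^ k + 8 ^ k := by ring
    simp only [add_zero] at e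
    omega
  · have : (8 * U + i) * 8 ^ k = (8 * U + 1) * 8 ^ k + (i - 1) * 8 ^ k := by
      rw [← add_mul]; congr 1; omega
    have h3 : 1 ≤ i - 1 := by omega
    have : 8 ^ k ≤ (i - 1) * 8 ^ k := Nat.le_mul_of_pos_left _ (by omega)
    omega

theorem jc_inj (k U i j : ℕ) (h : jc k U i = jc k U j) : i = j := by
  unfold jc at h
  have hp : 0 < 8 ^ k := by positivity
  have := Nat.eq_of_mul_eq_mul_right hp (Nat.add_right_cancel h)
  omega

theorem pos_jp (k U : ℕ) : (fun r => pos (T (jp k U) r)) = shr k (tri (k + 1) U) := by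
  unfold jp
  rw [posY, tri_digit _ _ _ (by norm_num)]
  simp [child]

theorem pos_jc0 (k U : ℕ) : (fun r => pos (T (jc k U 0) r)) = hm (1 / 4) (fun r => pos (T (jp k U) r)) := by
  rw [pos_jp]
  unfold jc
  rw [posX, tri_digit _ _ _ (by norm_num)]
  simp [child]

theorem face_map {α β : Type*} (f : α → β) (i : ℕ) (τ η : Fin 3 → α) :
    (fun r => f (face i τ η r)) = face i (fun r => f (τ r)) (fun r => f (η r)) := by
  funext r
  unfold face
  split_ifs <;> fin_cases r <;> rfl

theorem pos_jc (k U i : ℕ) (h2 : 2 ≤ i) (h7 : i ≤ 7) : (fun r => pos (T (jc k U i) r)) =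
    hm (1 / 4) (fun r => pos (face i (T (jp k U)) (T (jc k U 0)) r)) := by
  rw [face_map, pos_jc0, pos_jp]
  unfold jc
  rw [posX, tri_digit _ _ _ (by omega)]
  have a1 : i ≠ 1 := by omega
  have a0 : i ≠ 0 := by omega
  simp [child, a0, a1]

theorem nodupT (e : ℕ) : [T e 0, T e 1, T e 2].Nodup := by
  simp [T]

theorem ind_of_ND {τ : Fin 3 → VV} (hn : [τ 0, τ 1, τ 2].Nodup) (h : ND (fun r => pos (τ r))) :
    Ind pos (fs τ) := by
  simp only [List.nodup_cons, List.mem_cons, List.not_mem_nil, or_false, not_or, not_false_eq_true,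
    List.nodup_nil, and_true] at hn
  unfold fs
  rw [Ind3 (by tauto) (by tauto) (by tauto)]
  exact h

theorem indT (e : ℕ) : Ind pos (fs (T e)) := by
  apply ind_of_ND (nodupT e)
  have := posX 0 e
  simp only [pow_zero, mul_one, xx, add_zero] at this
  rw [this]
  exact ND_tri _ _

theorem annT (k U : ℕ) : Ann pos (T (jp k U)) (T (jc k U 0)) where
  nd := by
    have h := (jc_ne_jp k U 0 (by norm_num) (by norm_num)).symm
    simp [T, h]
  ind := indT _
  hη := pos_jc0 k U

theorem annC (k U i : ℕ) (h2 : 2 ≤ i) (h7 : i ≤ 7) :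
    Ann pos (face i (T (jp k U)) (T (jc k U 0))) (T (jc k U i)) where
  nd := by
    have hA := (annT k U).nodup_face h2 h7
    have a1 : jp k U ≠ jc k U i := (jc_ne_jp k U i (by omega) (by omega)).symm
    have a2 : jc k U 0 ≠ jc k U i := fun h => by have := jc_inj _ _ _ _ h; omega
    have a3 : jp k U ≠ jc k U 0 := (jc_ne_jp k U 0 (by norm_num) (by norm_num)).symm
    interval_cases i <;> simp [face, T, a1, a2, a3, a3.symm]
  ind := (annT k U).ind_face h2 h7
  hη := pos_jc k U i h2 h7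

/-- the triangles inside the cell `(k, u)` (without the hole at the lower terminal) -/
def cellF : ℕ → ℕ → Set (Finset VV)
  | 0, _ => ∅
  | k + 1, U => cellF k (8 * U + 0) ∪ (cellF k (8 * U + 1) ∪
      ⋃ i ∈ Finset.Icc 2 7, (cellF k (8 * U + i) ∪ {fs (T ((8 * U + i) * 8 ^ k))} ∪
        annF (face i (T (jp k U)) (T (jc k U 0))) (T (jc k U i))))

/-- the triangles of the cell `(k + 1, U)` outside the cell `(k, 8 U)` -/
def restF (k U : ℕ) : Set (Finset VV) := cellF k (8 * U + 1) ∪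
      ⋃ i ∈ Finset.Icc 2 7, (cellF k (8 * U + i) ∪ {fs (T ((8 * U + i) * 8 ^ k))} ∪
        annF (face i (T (jp k U)) (T (jc k U 0))) (T (jc k U i)))

theorem cellF_succ (k U : ℕ) : cellF (k + 1) U = cellF k (8 * U + 0) ∪ restF k U := rfl

theorem step_good (k : ℕ) (ih : ∀ (u : ℕ) (S : Set (Finset VV)), Good pos (fs (T (u * 8 ^ k))) S →
    Good pos (fs (T (u * 8 ^ k + xx k))) (cellF k u ∪ S)) (U : ℕ) (S0 : Set (Finset VV))
    (g0 : Good pos (fs (T (jc k U 0))) S0) :
    Good pos (fs (T (U * 8 ^ (k + 1) + xx (k + 1)))) (S0 ∪ restF k U) := by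
  have gi : ∀ i, 2 ≤ i → i ≤ 7 → Good pos (fs (face i (T (jp k U)) (T (jc k U 0))))
      (cellF k (8 * U + i) ∪ {fs (T ((8 * U + i) * 8 ^ k))} ∪
        annF (face i (T (jp k U)) (T (jc k U 0))) (T (jc k U i))) := by
    intro i h2 h7
    apply (annC k U i h2 h7).good_leaf
    exact ih _ _ (Good.single (indT _) (card_fs (nodupT _)))
  have gp := (annT k U).good (fun i => if i = 0 then S0 else
      (cellF k (8 * U + i) ∪ {fs (T ((8 * U + i) * 8 ^ k))} ∪
        annF (face i (T (jp k U)) (T (jc k U 0))) (T (jc k U i)))) (by simpa using g0) (by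
      intro i h2 h7
      have hi : i ≠ 0 := by omega
      simp only [hi, if_false]
      exact gi i h2 h7)
  have gf := ih (8 * U + 1) _ gp
  have e2 : (8 * U + 1) * 8 ^ k + xx k = U * 8 ^ (k + 1) + xx (k + 1) := by
    simp only [xx, pow_succ]; ring
  rw [e2] at gf
  convert gf using 1
  ext t
  simp only [restF, Set.mem_union, Set.mem_iUnion, Finset.mem_Icc, exists_prop, if_true]
  constructor
  · rintro (ht | ht | ⟨i, hi, ht⟩)
    · exact Or.inr (Or.inl ht)
    · exact Or.inl ht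
    · refine Or.inr (Or.inr ⟨i, hi, ?_⟩)
      have : i ≠ 0 := by omega
      simp only [if_neg this, Set.mem_union]
      exact ht
  · rintro (ht | ht | ⟨i, hi, ht⟩)
    · exact Or.inr (Or.inl ht)
    · exact Or.inl ht
    · refine Or.inr (Or.inr ⟨i, hi, ?_⟩)
      have : i ≠ 0 := by omega
      simp only [if_neg this, Set.mem_union] at ht
      exact ht

theorem cell_good (k : ℕ) : ∀ (u : ℕ) (S : Set (Finset VV)), Good pos (fs (T (u * 8 ^ k))) S →
    Good pos (fs (T (u * 8 ^ k + xx k))) (cellF k u ∪ S) := by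
  induction k with
  | zero =>
    intro u S hS
    simpa [cellF, xx] using hS
  | succ k ih =>
    intro U S hS
    have e1 : U * 8 ^ (k + 1) = (8 * U + 0) * 8 ^ k := by rw [pow_succ]; ring
    rw [e1] at hS
    have g0 := ih _ _ hS
    have := step_good k ih U (cellF k (8 * U + 0) ∪ S) (by simpa [jc] using g0)
    rw [cellF_succ]
    convert this using 1
    ext t
    simp only [Set.mem_union]
    tauto

end Pool.Agent.H991R2.TriGeom
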