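import Mathlib
import Pool.Agent.H991R2.TriCells

set_option autoImplicit false
set_option linter.unusedSectionVars false
set_option linter.unusedVariables false

namespace Pool.Agent.H991R2.TriGeom

open Finset

theorem cellF_sub (k U i : ℕ) (hi : i < 8) : cellF k (8 * U + i) ⊆ cellF (k + 1) U := by
  intro t ht
  rw [cellF_succ]
  rcases Nat.lt_or_ge i 1 with h | h
  · have : i = 0 := by omega
    subst this; exact Or.inl ht
  · right
    rcases Nat.lt_or_ge i 2 with h' | h'
    · have : i = 1 := by omega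
      subst this; exact Or.inl ht
    · right
      simp only [Set.mem_iUnion]
      exact ⟨i, Finset.mem_Icc.2 ⟨h', by omega⟩, Or.inl (Or.inl ht)⟩

/-- the triangles of the junction `(k, U)` -/
def jF (k U : ℕ) : Set (Finset VV) :=
  ⋃ i ∈ Finset.Icc 2 7, annF (face i (T (jp k U)) (T (jc k U 0))) (T (jc k U i))

theorem jF_sub (k U : ℕ) : jF k U ⊆ cellF (k + 1) U := by
  intro t ht
  rw [cellF_succ]
  right; right
  simp only [jF, Set.mem_iUnion] at ht ⊢
  obtain ⟨i, hi, ht⟩ := ht
  exact ⟨i, hi, Or.inr ht⟩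

/-- all triangles -/
def Tinf : Set (Finset VV) := {fs (T 0)} ∪ ⋃ k, cellF k 0

theorem cellF_sub_inf : ∀ u k : ℕ, cellF k u ⊆ Tinf := by
  intro u
  induction u using Nat.strong_induction_on with
  | _ u ih =>
    intro k t ht
    by_cases h : u = 0
    · subst h
      right
      exact Set.mem_iUnion.2 ⟨k, ht⟩
    · have h1 := cellF_sub k (u / 8) (u % 8) (Nat.mod_lt _ (by norm_num))
      rw [Nat.div_add_mod] at h1
      exact ih _ (Nat.div_lt_self (Nat.pos_of_ne_zero h) (by norm_num)) _ (h1 ht)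

theorem jF_sub_inf (k U : ℕ) : jF k U ⊆ Tinf := (jF_sub k U).trans (cellF_sub_inf _ _)

theorem cellF_cases (k : ℕ) : ∀ u, ∀ t ∈ cellF k u, (∃ e, t = fs (T e)) ∨ ∃ k' U, t ∈ jF k' U := by
  induction k with
  | zero => intro u t ht; exact absurd ht (Set.notMem_empty _)
  | succ k ih =>
    intro U t ht
    rw [cellF_succ] at ht
    rcases ht with ht | ht | ht
    · exact ih _ _ ht
    · exact ih _ _ ht
    · simp only [Set.mem_iUnion] at ht
      obtain ⟨i, hi, (ht | ht) | ht⟩ := ht
      · exact ih _ _ ht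
      · left; exact ⟨_, ht⟩
      · right
        refine ⟨k, U, ?_⟩
        simp only [jF, Set.mem_iUnion]
        exact ⟨i, hi, ht⟩

theorem Tinf_cases {t : Finset VV} (ht : t ∈ Tinf) : (∃ e, t = fs (T e)) ∨ ∃ k U, t ∈ jF k U := by
  rcases ht with ht | ht
  · left; exact ⟨0, ht⟩
  · obtain ⟨k, hk⟩ := Set.mem_iUnion.1 ht
    exact cellF_cases k _ _ hk

theorem cellF_finite (k : ℕ) : ∀ u, (cellF k u).Finite := by
  induction k with
  | zero => intro u; exact Set.finite_empty
  | succ k ih =>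
    intro U
    rw [cellF_succ]
    refine (ih _).union ((ih _).union ?_)
    refine (Finset.finite_toSet _).biUnion fun i _ => ((ih _).union (Set.finite_singleton _)).union ?_
    exact (Finset.finite_toSet _).biUnion fun j _ => Set.finite_singleton _

/-- the finite complexes -/
def KK (k : ℕ) : Set (Finset VV) := cellF k 0 ∪ {fs (T 0)}

theorem KK_finite (k : ℕ) : (KK k).Finite := (cellF_finite k 0).union (Set.finite_singleton _)

theorem KK_good (k : ℕ) : Good pos (fs (T (xx k))) (KK k) := by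
  have := cell_good k 0 {fs (T 0)} (by
    rw [zero_mul]; exact Good.single (indT _) (card_fs (nodupT _)))
  rwa [zero_mul, zero_add] at this

theorem KK_succ (k : ℕ) : KK (k + 1) = KK k ∪ restF k 0 := by
  unfold KK
  rw [cellF_succ]
  ext t
  simp only [Set.mem_union, mul_zero, zero_add]
  tauto

theorem KK_mono {k m : ℕ} (h : k ≤ m) : KK k ⊆ KK m := by
  induction m, h using Nat.le_induction with
  | base => exact subset_rfl
  | succ m _ ih => rw [KK_succ]; exact ih.trans Set.subset_union_left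

theorem KK_sub_inf (k : ℕ) : KK k ⊆ Tinf := by
  rintro t (ht | ht)
  · exact cellF_sub_inf _ _ ht
  · exact Or.inl ht

theorem exists_KK {t : Finset VV} (ht : t ∈ Tinf) : ∃ k, t ∈ KK k := by
  rcases ht with ht | ht
  · exact ⟨0, Or.inr ht⟩
  · obtain ⟨k, hk⟩ := Set.mem_iUnion.1 ht
    exact ⟨k, Or.inl hk⟩

theorem Tinf_tri {t : Finset VV} (ht : t ∈ Tinf) : t.card = 3 ∧ Ind pos t := by
  obtain ⟨k, hk⟩ := exists_KK ht
  exact (KK_good k).tri t hk

theorem Tinf_inter {t t' : Finset VV} (ht : t ∈ Tinf) (ht' : t' ∈ Tinf) {y : Pl}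
    (hy : H pos t y) (hy' : H pos t' y) : H pos (t ∩ t') y := by
  obtain ⟨k, hk⟩ := exists_KK ht
  obtain ⟨k', hk'⟩ := exists_KK ht'
  exact (KK_good (max k k')).inter t (KK_mono (le_max_left _ _) hk) t'
    (KK_mono (le_max_right _ _) hk') y hy hy'

/-! ### covering the plane -/

/-- the open triangle with index `k` -/
def Uk (k : ℕ) : Set Pl := {y | 0 < (4 : ℝ) ^ (2 ^ k - 1) - (y 0 + y 1) ∧
  0 < (4 : ℝ) ^ (2 ^ k - 1) + 2 * y 0 - y 1 ∧ 0 < (4 : ℝ) ^ (2 ^ k - 1) + 2 * y 1 - y 0}

theorem pos_xx (k : ℕ) (r : Fin 3) : pos (T (xx k) r) = (4 : ℝ) ^ (2 ^ k - 1) • bs r := by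
  have := congrFun (posX k 0) r
  simp only [zero_mul, zero_add] at this
  rw [this, tri_zero]

theorem fsT (e : ℕ) : fs (T e) = ({(e, 0), (e, 1), (e, 2)} : Finset VV) := rfl

theorem H_xx (k : ℕ) (y : Pl) : H pos (fs (T (xx k))) y ↔
    0 ≤ (4 : ℝ) ^ (2 ^ k - 1) - (y 0 + y 1) ∧
    0 ≤ (4 : ℝ) ^ (2 ^ k - 1) + 2 * y 0 - y 1 ∧ 0 ≤ (4 : ℝ) ^ (2 ^ k - 1) + 2 * y 1 - y 0 := by
  set R : ℝ := (4 : ℝ) ^ (2 ^ k - 1) with hR
  have hR0 : 0 < R := by positivity
  have d01 : ((xx k, 0) : VV) ≠ (xx k, 1) := by simp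
  have d12 : ((xx k, 1) : VV) ≠ (xx k, 2) := by simp
  have d20 : ((xx k, 2) : VV) ≠ (xx k, 0) := by simp
  have p0 : pos (xx k, 0) = R • bs 0 := pos_xx k 0
  have p1 : pos (xx k, 1) = R • bs 1 := pos_xx k 1
  have p2 : pos (xx k, 2) = R • bs 2 := pos_xx k 2
  rw [fsT, H3 d01 d12 d20, p0, p1, p2]
  constructor
  · rintro ⟨l, m, n, hl, hm, hn, h1, rfl⟩
    simp only [bs, Matrix.cons_val, PiLp.add_apply, PiLp.smul_apply, smul_eq_mul]
    refine ⟨?_, ?_, ?_⟩
    · have : R - (l * (R * 1) + m * (R * 0) + n * (R * -1) + (l * (R * 0) + m * (R * 1) + n * (R * -1)))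
          = 3 * n * R := by
        have : m = 1 - l - n := by linarith
        subst this; ring
      rw [this]; positivity
    · have : R + 2 * (l * (R * 1) + m * (R * 0) + n * (R * -1)) - (l * (R * 0) + m * (R * 1) + n * (R * -1))
          = 3 * l * R := by
        have : m = 1 - l - n := by linarith
        subst this; ring
      rw [this]; positivity
    · have : R + 2 * (l * (R * 0) + m * (R * 1) + n * (R * -1)) - (l * (R * 1) + m * (R * 0) + n * (R * -1))
          = 3 * m * R := by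
        have : m = 1 - l - n := by linarith
        subst this; ring
      rw [this]; positivity
  · rintro ⟨h1, h2, h3⟩
    refine ⟨(R + 2 * y 0 - y 1) / (3 * R), (R + 2 * y 1 - y 0) / (3 * R), (R - (y 0 + y 1)) / (3 * R),
      by positivity, by positivity, by positivity, ?_, ?_⟩
    · field_simp; ring
    · ext i
      fin_cases i
      · simp [bs]; field_simp; ring
      · simp [bs]; field_simp; ring

theorem four_pow_tendsto : Filter.Tendsto (fun k : ℕ => (4 : ℝ) ^ (2 ^ k - 1)) Filter.atTop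
    Filter.atTop := by
  refine Filter.Tendsto.comp (tendsto_pow_atTop_atTop_of_one_lt (by norm_num)) ?_
  refine Filter.tendsto_atTop_mono (fun k => ?_) Filter.tendsto_id
  have : k < 2 ^ k := Nat.lt_two_pow_self
  show k ≤ 2 ^ k - 1
  omega

theorem exists_Uk (y : Pl) : ∃ k, y ∈ Uk k := by
  obtain ⟨k, hk⟩ := (four_pow_tendsto.eventually_gt_atTop (2 * |y 0| + 2 * |y 1|)).exists
  refine ⟨k, ?_, ?_, ?_⟩
  · have := le_abs_self (y 0)
    have := le_abs_self (y 1)
    have := abs_nonneg (y 0)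
    have := abs_nonneg (y 1)
    linarith
  · have := neg_abs_le (y 0)
    have := le_abs_self (y 1)
    have := abs_nonneg (y 0)
    have := abs_nonneg (y 1)
    linarith
  · have := le_abs_self (y 0)
    have := neg_abs_le (y 1)
    have := abs_nonneg (y 0)
    have := abs_nonneg (y 1)
    linarith

theorem isOpen_Uk (k : ℕ) : IsOpen (Uk k) := by
  have c0 : Continuous fun y : Pl => y 0 := by fun_prop
  have c1 : Continuous fun y : Pl => y 1 := by fun_prop
  have o1 : IsOpen {y : Pl | 0 < (4 : ℝ) ^ (2 ^ k - 1) - (y 0 + y 1)} :=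
    isOpen_lt continuous_const (continuous_const.sub (c0.add c1))
  have o2 : IsOpen {y : Pl | 0 < (4 : ℝ) ^ (2 ^ k - 1) + 2 * y 0 - y 1} :=
    isOpen_lt continuous_const ((continuous_const.add (continuous_const.mul c0)).sub c1)
  have o3 : IsOpen {y : Pl | 0 < (4 : ℝ) ^ (2 ^ k - 1) + 2 * y 1 - y 0} :=
    isOpen_lt continuous_const ((continuous_const.add (continuous_const.mul c1)).sub c0)
  exact o1.inter (o2.inter o3)

theorem H_of_Uk {k : ℕ} {y : Pl} (hy : y ∈ Uk k) : H pos (fs (T (xx k))) y :=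
  (H_xx k y).2 ⟨hy.1.le, hy.2.1.le, hy.2.2.le⟩

theorem Uk_mono {k m : ℕ} (h : k ≤ m) : Uk k ⊆ Uk m := by
  rintro y ⟨h1, h2, h3⟩
  have : (4 : ℝ) ^ (2 ^ k - 1) ≤ (4 : ℝ) ^ (2 ^ m - 1) := by
    apply pow_le_pow_right₀ (by norm_num)
    have : 2 ^ k ≤ 2 ^ m := Nat.pow_le_pow_right (by norm_num) h
    omega
  exact ⟨by linarith, by linarith, by linarith⟩

/-- a point of the open triangle does not lie on a proper face of the closed triangle -/
theorem not_side {k : ℕ} {y : Pl} (hy : y ∈ Uk k) {s : Finset VV} (hs : s ⊆ fs (T (xx k)))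
    (hne : s ≠ fs (T (xx k))) : ¬ H pos s y := by
  intro h
  have hR0 : 0 < (4 : ℝ) ^ (2 ^ k - 1) := by positivity
  obtain ⟨h1, h2, h3⟩ := hy
  obtain ⟨w, w0, w1, w2, w3⟩ := h
  have d01 : ((xx k, 0) : VV) ≠ (xx k, 1) := by simp
  have d12 : ((xx k, 1) : VV) ≠ (xx k, 2) := by simp
  have d20 : ((xx k, 2) : VV) ≠ (xx k, 0) := by simp
  have e1 : ∑ v ∈ fs (T (xx k)), w v = 1 := by
    rw [← w2]; exact (Finset.sum_subset hs fun v _ hv => w1 v hv).symm
  have e2 : ∑ v ∈ fs (T (xx k)), w v • pos v = y := by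
    rw [← w3]
    refine (Finset.sum_subset hs fun v _ hv => ?_).symm
    rw [w1 v hv, zero_smul]
  rw [fsT, sum3 d01 d12 d20] at e1 e2
  have p0 : pos (xx k, 0) = (4 : ℝ) ^ (2 ^ k - 1) • bs 0 := pos_xx k 0
  have p1 : pos (xx k, 1) = (4 : ℝ) ^ (2 ^ k - 1) • bs 1 := pos_xx k 1
  have p2 : pos (xx k, 2) = (4 : ℝ) ^ (2 ^ k - 1) • bs 2 := pos_xx k 2
  rw [p0, p1, p2] at e2
  set R : ℝ := (4 : ℝ) ^ (2 ^ k - 1) with hR
  have y0 : y 0 = R * (w (xx k, 0) - w (xx k, 2)) := by
    rw [← e2]; simp [bs]; ring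
  have y1 : y 1 = R * (w (xx k, 1) - w (xx k, 2)) := by
    rw [← e2]; simp [bs]; ring
  have a0 : 0 < w (xx k, 0) := by
    by_contra hc
    have hz : w (xx k, 0) = 0 := le_antisymm (not_lt.1 hc) (w0 _)
    rw [y0, y1] at h2
    have : R + 2 * (R * (w (xx k, 0) - w (xx k, 2))) - R * (w (xx k, 1) - w (xx k, 2)) =
        3 * R * w (xx k, 0) := by
      have : w (xx k, 1) = 1 - w (xx k, 0) - w (xx k, 2) := by linarith
      rw [this]; ring
    rw [this, hz] at h2
    simp at h2
  have a1 : 0 < w (xx k, 1) := by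
    by_contra hc
    have hz : w (xx k, 1) = 0 := le_antisymm (not_lt.1 hc) (w0 _)
    rw [y0, y1] at h3
    have : R + 2 * (R * (w (xx k, 1) - w (xx k, 2))) - R * (w (xx k, 0) - w (xx k, 2)) =
        3 * R * w (xx k, 1) := by
      have : w (xx k, 0) = 1 - w (xx k, 1) - w (xx k, 2) := by linarith
      rw [this]; ring
    rw [this, hz] at h3
    simp at h3
  have a2 : 0 < w (xx k, 2) := by
    by_contra hc
    have hz : w (xx k, 2) = 0 := le_antisymm (not_lt.1 hc) (w0 _)
    rw [y0, y1] at h1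
    have : R - (R * (w (xx k, 0) - w (xx k, 2)) + R * (w (xx k, 1) - w (xx k, 2))) =
        3 * R * w (xx k, 2) := by
      have : w (xx k, 1) = 1 - w (xx k, 0) - w (xx k, 2) := by linarith
      rw [this]; ring
    rw [this, hz] at h1
    simp at h1
  apply hne
  apply Finset.Subset.antisymm hs
  intro v hv
  by_contra hvs
  have hwv := w1 v hvs
  rw [fsT] at hv
  simp only [Finset.mem_insert, Finset.mem_singleton] at hv
  rcases hv with rfl | rfl | rfl <;> linarith

/-- a triangle meeting the open triangle `Uk k` belongs to the finite complex `KK k` -/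
theorem mem_KK_of_meet {k : ℕ} {t : Finset VV} (ht : t ∈ Tinf) {y : Pl} (hy : y ∈ Uk k)
    (hty : H pos t y) : t ∈ KK k := by
  obtain ⟨m, hm⟩ := exists_KK ht
  rcases le_total m k with h | h
  · exact KK_mono h hm
  · induction m, h using Nat.le_induction with
    | base => exact hm
    | succ m hkm ih =>
      by_cases hmem : t ∈ KK m
      · exact ih hmem
      · exfalso
        have hy' := Uk_mono hkm hy
        rw [KK_succ] at hm
        have hr : t ∈ restF m 0 := hm.resolve_left hmem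
        have htc := (Tinf_tri ht).1
        have hhc : (fs (T (xx m))).card = 3 := card_fs (nodupT _)
        by_cases hth : t = fs (T (xx m))
        · -- use the fine complex
          obtain ⟨t0, ht0, ht0y⟩ := (KK_good m).cover y (H_of_Uk hy')
          have hne : t0 ≠ t := fun h => hmem (h ▸ ht0)
          have hint := Tinf_inter ht (KK_sub_inf m ht0) hty ht0y
          rw [hth] at hint
          refine not_side hy' Finset.inter_subset_left ?_ hint
          intro heq
          have h1 : fs (T (xx m)) ⊆ t0 := Finset.inter_eq_left.1 heq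
          have h2 : t0.card = 3 := (Tinf_tri (KK_sub_inf m ht0)).1
          have h3 := Finset.eq_of_subset_of_card_le h1 (by rw [h2, hhc])
          exact hne (by rw [hth, h3])
        · have hg := step_good m (cell_good m) 0 {fs (T (jc m 0 0))}
            (Good.single (indT _) (card_fs (nodupT _)))
          have e : jc m 0 0 = xx m := by simp [jc]
          rw [e] at hg
          have hint := hg.inter t (Or.inr hr) (fs (T (xx m))) (Or.inl rfl) y hty (H_of_Uk hy')
          refine not_side hy' Finset.inter_subset_right ?_ hint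
          intro heq
          have h1 : fs (T (xx m)) ⊆ t := Finset.inter_eq_right.1 heq
          have h3 := Finset.eq_of_subset_of_card_le h1 (by rw [htc, hhc])
          exact hth h3.symm

theorem Tinf_cover (y : Pl) : ∃ t ∈ Tinf, H pos t y := by
  obtain ⟨k, hk⟩ := exists_Uk y
  obtain ⟨t, ht, hty⟩ := (KK_good k).cover y (H_of_Uk hk)
  exact ⟨t, KK_sub_inf k ht, hty⟩

end Pool.Agent.H991R2.TriGeom
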