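import Mathlib
import Pool.Agent.H991R2.TriComplex

set_option autoImplicit false
set_option linter.unusedSectionVars false
set_option linter.unusedVariables false

namespace Pool.Agent.H991R2.TriGeom

open Finset

/-- two vertices in a common triangle -/
def Rel (a b : VV) : Prop := ∃ t ∈ Tinf, a ∈ t ∧ b ∈ t

theorem Rel.symm {a b : VV} (h : Rel a b) : Rel b a := by
  obtain ⟨t, ht, h1, h2⟩ := h; exact ⟨t, ht, h2, h1⟩

/-- the graph -/
def GG : SimpleGraph VV where
  Adj a b := a ≠ b ∧ Rel a b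
  symm := ⟨fun a b h => ⟨h.1.symm, h.2.symm⟩⟩
  loopless := ⟨fun a h => h.1 rfl⟩

theorem mem_fs {τ : Fin 3 → VV} (r : Fin 3) : τ r ∈ fs τ := by
  fin_cases r <;> simp [fs]

theorem rel_face {τ η : Fin 3 → VV} (h : annF τ η ⊆ Tinf) {j : ℕ} (h2 : 2 ≤ j) (h7 : j ≤ 7)
    (r s : Fin 3) : Rel (face j τ η r) (face j τ η s) := by
  refine ⟨fs (face j τ η), h ?_, mem_fs r, mem_fs s⟩
  simp only [annF, Set.mem_iUnion]
  exact ⟨j, Finset.mem_Icc.2 ⟨h2, h7⟩, rfl⟩

theorem ann_sub_inf (k U i : ℕ) (h2 : 2 ≤ i) (h7 : i ≤ 7) :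
    annF (face i (T (jp k U)) (T (jc k U 0))) (T (jc k U i)) ⊆ Tinf := by
  intro t ht
  apply jF_sub_inf k U
  simp only [jF, Set.mem_iUnion]
  exact ⟨i, Finset.mem_Icc.2 ⟨h2, h7⟩, ht⟩

theorem exists_jc : ∀ u k : ℕ, ∃ k' U i, i < 8 ∧ i ≠ 1 ∧ u * 8 ^ k + xx k = jc k' U i := by
  intro u
  induction u using Nat.strong_induction_on with
  | _ u ih =>
    intro k
    by_cases h : u % 8 = 1
    · have hu : 0 < u := by omega
      obtain ⟨k', U, i, h1, h2, h3⟩ := ih (u / 8) (Nat.div_lt_self hu (by norm_num)) (k + 1)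
      refine ⟨k', U, i, h1, h2, ?_⟩
      rw [← h3]
      have e : u = 8 * (u / 8) + 1 := by omega
      conv_lhs => rw [e]
      simp only [xx, pow_succ]; ring
    · refine ⟨k, u / 8, u % 8, Nat.mod_lt _ (by norm_num), h, ?_⟩
      unfold jc
      rw [Nat.div_add_mod]

theorem rel_child (k U i : ℕ) (h8 : i < 8) (h1 : i ≠ 1) (r s : Fin 3) :
    Rel (T (jc k U i) r) (T (jc k U i) s) := by
  have key : ∀ (η : Fin 3 → VV), Rel (η 0) (η 1) → Rel (η 1) (η 2) → Rel (η 2) (η 0) →
      ∀ r s, Rel (η r) (η s) := by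
    intro η h01 h12 h20 r s
    have d0 : Rel (η 0) (η 0) := by obtain ⟨t, ht, ha, hb⟩ := h01; exact ⟨t, ht, ha, ha⟩
    have d1 : Rel (η 1) (η 1) := by obtain ⟨t, ht, ha, hb⟩ := h01; exact ⟨t, ht, hb, hb⟩
    have d2 : Rel (η 2) (η 2) := by obtain ⟨t, ht, ha, hb⟩ := h20; exact ⟨t, ht, ha, ha⟩
    fin_cases r <;> fin_cases s
    · exact d0
    · exact h01
    · exact h20.symm
    · exact h01.symm
    · exact d1
    · exact h12
    · exact h20
    · exact h12.symm
    · exact d2
  rcases Nat.lt_or_ge i 2 with h | h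
  · have : i = 0 := by omega
    subst this
    apply key
    · exact (rel_face (ann_sub_inf k U 3 (by norm_num) (by norm_num)) (j := 6) (by norm_num)
        (by norm_num) 1 0)
    · exact (rel_face (ann_sub_inf k U 4 (by norm_num) (by norm_num)) (j := 5) (by norm_num)
        (by norm_num) 1 0)
    · exact (rel_face (ann_sub_inf k U 7 (by norm_num) (by norm_num)) (j := 6) (by norm_num)
        (by norm_num) 1 0)
  · have h7 : i ≤ 7 := by omega
    apply key
    · exact (rel_face (ann_sub_inf k U i h h7) (j := 3) (by norm_num) (by norm_num) 0 2)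
    · exact (rel_face (ann_sub_inf k U i h h7) (j := 4) (by norm_num) (by norm_num) 2 1)
    · exact (rel_face (ann_sub_inf k U i h h7) (j := 7) (by norm_num) (by norm_num) 0 2)

theorem relT (e : ℕ) (r s : Fin 3) : Rel (T e r) (T e s) := by
  obtain ⟨k, U, i, h8, h1, h⟩ := exists_jc e 0
  simp only [pow_zero, mul_one, xx, add_zero] at h
  rw [h]
  exact rel_child k U i h8 h1 r s

theorem rel_jp_jc (k U i : ℕ) (h8 : i < 8) (h1 : i ≠ 1) :
    ∃ r s, Rel (T (jp k U) r) (T (jc k U i) s) := by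
  rcases Nat.lt_or_ge i 2 with h | h
  · have : i = 0 := by omega
    subst this
    exact ⟨0, 0, rel_face (ann_sub_inf k U 2 (by norm_num) (by norm_num)) (j := 6) (by norm_num)
        (by norm_num) 1 0⟩
  · have h7 : i ≤ 7 := by omega
    have e1 := rel_face (ann_sub_inf k U i h h7) (j := 2) (by norm_num) (by norm_num) 0 2
    have e2 := rel_face (ann_sub_inf k U i h h7) (j := 3) (by norm_num) (by norm_num) 1 2
    interval_cases i
    · exact ⟨0, 0, e1⟩
    · exact ⟨1, 1, e2⟩
    · exact ⟨1, 0, e1⟩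
    · exact ⟨1, 0, e1⟩
    · exact ⟨2, 0, e1⟩
    · exact ⟨0, 1, e2⟩

/-- membership in the junction `(k, U)` -/
def jmem (k U e : ℕ) : Prop := e = jp k U ∨ ∃ i, i < 8 ∧ i ≠ 1 ∧ e = jc k U i

theorem jmem_of_mem {k U : ℕ} {t : Finset VV} (ht : t ∈ jF k U) {a : VV} (ha : a ∈ t) :
    jmem k U a.1 := by
  simp only [jF, Set.mem_iUnion, annF] at ht
  obtain ⟨i, hi, j, hj, rfl⟩ := ht
  rw [Finset.mem_Icc] at hi hj
  have hp : ∀ r, jmem k U (T (jp k U) r).1 := fun r => Or.inl rfl
  have hc : ∀ r, jmem k U (T (jc k U 0) r).1 := fun r => Or.inr ⟨0, by norm_num, by norm_num, rfl⟩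
  have hi' : ∀ r, jmem k U (T (jc k U i) r).1 := fun r => Or.inr ⟨i, by omega, by omega, rfl⟩
  have key : ∀ (i : ℕ) (τ η : Fin 3 → VV), (∀ r, jmem k U (τ r).1) → (∀ r, jmem k U (η r).1) →
      ∀ r, jmem k U (face i τ η r).1 := by
    intro i τ η h1 h2 r
    unfold face
    split_ifs <;> fin_cases r <;> simp [h1, h2]
  have h1 := key j _ _ (key i _ _ hp hc) hi'
  unfold fs at ha
  simp only [Finset.mem_insert, Finset.mem_singleton] at ha
  rcases ha with rfl | rfl | rfl
  · exact h1 0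
  · exact h1 1
  · exact h1 2

theorem rel_cases {a b : VV} (h : Rel a b) : a.1 = b.1 ∨ ∃ k U, jmem k U a.1 ∧ jmem k U b.1 := by
  obtain ⟨t, ht, ha, hb⟩ := h
  rcases Tinf_cases ht with ⟨e, rfl⟩ | ⟨k, U, hk⟩
  · left
    unfold fs T at ha hb
    simp only [Finset.mem_insert, Finset.mem_singleton] at ha hb
    rcases ha with rfl | rfl | rfl <;> rcases hb with rfl | rfl | rfl <;> rfl
  · right
    exact ⟨k, U, jmem_of_mem hk ha, jmem_of_mem hk hb⟩

/-! ### injectivity of the positions and the simplicial complex -/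

theorem H_single {a : VV} : H pos {a} (pos a) := by
  refine ⟨fun v => if v = a then 1 else 0, ?_, ?_, ?_, ?_⟩
  · intro v; dsimp only; split_ifs <;> norm_num
  · intro v hv; simp only [Finset.mem_singleton] at hv; simp [hv]
  · simp
  · simp

theorem pos_injective : Function.Injective pos := by
  intro a b hab
  obtain ⟨t, ht, ha, _⟩ := relT a.1 a.2 a.2
  obtain ⟨t', ht', hb, _⟩ := relT b.1 b.2 b.2
  have ha' : a ∈ t := ha
  have hb' : b ∈ t' := hb
  have Ha : H pos {a} (pos a) := H_single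
  have Hb : H pos {b} (pos a) := by rw [hab]; exact H_single
  have sa : ({a} : Finset VV) ⊆ t := Finset.singleton_subset_iff.2 ha'
  have sb : ({b} : Finset VV) ⊆ t' := Finset.singleton_subset_iff.2 hb'
  have h1 := Tinf_inter ht ht' (H_mono sa Ha) (H_mono sb Hb)
  have h2 := H_inter (Tinf_tri ht).2 sa Finset.inter_subset_left Ha h1
  have hat' : a ∈ t' := by
    by_contra hc
    have : ({a} : Finset VV) ∩ (t ∩ t') = ∅ := by
      ext v
      simp only [Finset.mem_inter, Finset.mem_singleton, Finset.notMem_empty, iff_false]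
      rintro ⟨rfl, _, h⟩
      exact hc h
    rw [this] at h2
    exact not_H_empty h2
  have h3 := H_inter (Tinf_tri ht').2 (Finset.singleton_subset_iff.2 hat') sb Ha Hb
  by_contra hne
  have : ({a} : Finset VV) ∩ {b} = ∅ := by
    ext v
    simp only [Finset.mem_inter, Finset.mem_singleton, Finset.notMem_empty, iff_false]
    rintro ⟨rfl, h⟩
    exact hne h
  rw [this] at h3
  exact not_H_empty h3

theorem mem_convexHull_iff {t : Finset VV} {y : Pl} :
    y ∈ convexHull ℝ (pos '' (t : Set VV)) ↔ H pos t y := by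
  constructor
  · intro h
    rw [← Finset.coe_image, Finset.mem_convexHull'] at h
    obtain ⟨w, h0, h1, h2⟩ := h
    rw [Finset.sum_image (fun _ _ _ _ h => pos_injective h)] at h1 h2
    refine ⟨fun v => if v ∈ t then w (pos v) else 0, ?_, ?_, ?_, ?_⟩
    · intro v
      dsimp only
      split_ifs with hv
      · exact h0 _ (Finset.mem_image_of_mem _ hv)
      · exact le_rfl
    · intro v hv; simp [hv]
    · rw [← h1]
      exact Finset.sum_congr rfl fun v hv => by simp [hv]
    · rw [← h2]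
      exact Finset.sum_congr rfl fun v hv => by simp [hv]
  · rintro ⟨w, h0, h1, h2, rfl⟩
    exact (convex_convexHull ℝ _).sum_mem (fun v _ => h0 v) h2 fun v hv =>
      subset_convexHull ℝ _ (Set.mem_image_of_mem _ hv)

theorem affineIndependent_image {t : Finset VV} (h : Ind pos t) :
    AffineIndependent ℝ (Subtype.val : {x // x ∈ t.image pos} → Pl) := by
  rw [affineIndependent_iff]
  intro s w hw hs i hi
  -- transport the weights to vertices
  let u : VV → ℝ := fun v => if hv : v ∈ t then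
    (if (⟨pos v, Finset.mem_image_of_mem _ hv⟩ : {x // x ∈ t.image pos}) ∈ s then
      w ⟨pos v, Finset.mem_image_of_mem _ hv⟩ else 0) else 0
  have hinj : Set.InjOn pos (t : Set VV) := pos_injective.injOn
  have e : ∀ {M : Type} [AddCommMonoid M] (f : Pl → ℝ → M) (hf : ∀ y, f y 0 = 0),
      ∑ v ∈ t, f (pos v) (u v) = ∑ j ∈ s, f j.1 (w j) := by
    intro M _ f hf
    have e1 : ∑ j ∈ s, f j.1 (w j) = ∑ j : {x // x ∈ t.image pos}, f j.1 (if j ∈ s then w j else 0) := by
      rw [← Finset.sum_subset (Finset.subset_univ s)]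
      · exact Finset.sum_congr rfl fun j hj => by simp [hj]
      · intro j _ hj; simp [hj, hf]
    rw [e1]
    have e2 : ∑ j : {x // x ∈ t.image pos}, f j.1 (if j ∈ s then w j else 0) =
        ∑ y ∈ (t.image pos).attach, f y.1 (if y ∈ s then w y else 0) := rfl
    rw [e2]
    have e3 : ∑ v ∈ t, f (pos v) (u v) = ∑ v ∈ t.attach, f (pos v.1) (u v.1) :=
      (Finset.sum_attach t (fun v => f (pos v) (u v))).symm
    rw [e3]
    refine Finset.sum_bij (fun v _ => ⟨pos v.1, Finset.mem_image_of_mem _ v.2⟩) ?_ ?_ ?_ ?_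
    · intro v _; exact Finset.mem_attach _ _
    · intro v _ v' _ h
      exact Subtype.ext (pos_injective (Subtype.ext_iff.1 h))
    · rintro ⟨y, hy⟩ _
      obtain ⟨v, hv, rfl⟩ := Finset.mem_image.1 hy
      exact ⟨⟨v, hv⟩, Finset.mem_attach _ _, rfl⟩
    · intro v _
      simp only [u, v.2, dif_pos]
  have k1 : ∑ v ∈ t, u v = 0 := by
    rw [← hw]; exact e (fun _ r => r) (fun _ => rfl)
  have k2 : ∑ v ∈ t, u v • pos v = 0 := by
    rw [← hs]; exact e (fun y r => r • y) (fun y => zero_smul ℝ y)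
  have k3 := h u (fun v hv => by simp [u, hv]) k1 k2
  obtain ⟨v, hv, hvi⟩ := Finset.mem_image.1 i.2
  have := k3 v
  simp only [u, hv, dif_pos] at this
  have hi' : (⟨pos v, Finset.mem_image_of_mem _ hv⟩ : {x // x ∈ t.image pos}) = i :=
    Subtype.ext hvi
  rw [hi', if_pos hi] at this
  exact this

/-- the simplicial complex in the plane -/
noncomputable def KC : Geometry.SimplicialComplex ℝ Pl where
  faces := {s | s.Nonempty ∧ ∃ t ∈ Tinf, s ⊆ t.image pos}
  isRelLowerSet_faces := by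
    intro s hs
    refine ⟨hs.1, fun s' hle hne => ⟨hne, ?_⟩⟩
    obtain ⟨t, ht, hst⟩ := hs.2
    exact ⟨t, ht, hle.trans hst⟩
  indep := by
    rintro s ⟨_, t, ht, hst⟩
    exact (affineIndependent_image (Tinf_tri ht).2).mono hst
  inter_subset_convexHull := by
    rintro s s' ⟨_, t, ht, hst⟩ ⟨_, t', ht', hst'⟩ y ⟨hy, hy'⟩
    -- pull back the faces
    have pb : ∀ {s : Finset Pl} {t : Finset VV}, s ⊆ t.image pos →
        ∃ r ⊆ t, r.image pos = s := by
      intro s t h
      refine ⟨t.filter (fun v => pos v ∈ s), Finset.filter_subset _ _, ?_⟩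
      ext z
      simp only [Finset.mem_image, Finset.mem_filter]
      constructor
      · rintro ⟨v, ⟨_, hv⟩, rfl⟩; exact hv
      · intro hz
        obtain ⟨v, hv, rfl⟩ := Finset.mem_image.1 (h hz)
        exact ⟨v, ⟨hv, hz⟩, rfl⟩
    obtain ⟨r, hr, rfl⟩ := pb hst
    obtain ⟨r', hr', rfl⟩ := pb hst'
    rw [Finset.coe_image] at hy hy' ⊢
    rw [Finset.coe_image]
    rw [mem_convexHull_iff] at hy hy'
    have h1 := Tinf_inter ht ht' (H_mono hr hy) (H_mono hr' hy')
    have h2 := H_inter (Tinf_tri ht).2 hr Finset.inter_subset_left hy h1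
    have h3 := H_inter (Tinf_tri ht').2 hr' Finset.inter_subset_right hy' h1
    have h4 := H_inter (Tinf_tri ht).2 (s := r ∩ (t ∩ t')) (s' := r' ∩ (t ∩ t'))
      (fun v hv => hr (Finset.mem_inter.1 hv).1)
      (fun v hv => (Finset.mem_inter.1 (Finset.mem_inter.1 hv).2).1) h2 h3
    have h5 : H pos (r ∩ r') y := H_mono (by
      intro v hv
      simp only [Finset.mem_inter] at hv ⊢
      tauto) h4
    rw [← Set.image_inter pos_injective, ← Finset.coe_inter, mem_convexHull_iff]
    exact h5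

end Pool.Agent.H991R2.TriGeom
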