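import Mathlib
import Pool.Agent.H991R2.TriGraph

set_option autoImplicit false
set_option linter.unusedSectionVars false
set_option linter.unusedVariables false

namespace Pool.Agent.H991R2.TriGeom

open Finset

/-! ### upper bounds on distances -/

/-- there is a walk of length at most `n` from `a` to `b` -/
def W (n : ℕ) (a b : VV) : Prop := ∃ q : GG.Walk a b, q.length ≤ n

theorem W_mono {m n : ℕ} (h : m ≤ n) {a b : VV} (hw : W m a b) : W n a b := by
  obtain ⟨q, hq⟩ := hw; exact ⟨q, hq.trans h⟩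

theorem W_trans {m n : ℕ} {a b c : VV} (h : W m a b) (h' : W n b c) : W (m + n) a c := by
  obtain ⟨q, hq⟩ := h
  obtain ⟨q', hq'⟩ := h'
  exact ⟨q.append q', by rw [SimpleGraph.Walk.length_append]; omega⟩

theorem W_symm {n : ℕ} {a b : VV} (h : W n a b) : W n b a := by
  obtain ⟨q, hq⟩ := h
  exact ⟨q.reverse, by rw [SimpleGraph.Walk.length_reverse]; exact hq⟩

theorem W_rel {a b : VV} (h : Rel a b) : W 1 a b := by
  by_cases hab : a = b
  · subst hab; exact ⟨SimpleGraph.Walk.nil, by simp⟩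
  · exact ⟨SimpleGraph.Walk.cons (show GG.Adj a b from ⟨hab, h⟩) SimpleGraph.Walk.nil, by simp⟩

theorem W_junction (k U i : ℕ) (h8 : i < 8) (h1 : i ≠ 1) (r s : Fin 3) :
    W 3 (T (jp k U) r) (T (jc k U i) s) := by
  obtain ⟨r0, s0, h⟩ := rel_jp_jc k U i h8 h1
  have a := W_rel (relT (jp k U) r r0)
  have b := W_rel (relT (jc k U i) s0 s)
  exact W_trans (W_trans a (W_rel h)) b

theorem W_junction' (k U i j : ℕ) (h8 : i < 8) (h1 : i ≠ 1) (h8' : j < 8) (h1' : j ≠ 1)
    (r s : Fin 3) : W 6 (T (jc k U i) r) (T (jc k U j) s) :=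
  W_trans (W_symm (W_junction k U i h8 h1 0 r)) (W_junction k U j h8' h1' 0 s)

theorem cellW (k : ℕ) : ∀ (u : ℕ) (x : VV), x.1 / 8 ^ k = u →
    (∀ s, W (7 * 2 ^ k - 6) x (T (u * 8 ^ k + xx k) s)) ∧
    (∀ s, W (7 * 2 ^ k - 6) x (T (u * 8 ^ k) s)) := by
  induction k with
  | zero =>
    intro u x hx
    simp only [pow_zero, Nat.div_one] at hx
    subst hx
    have : ∀ s, W (7 * 2 ^ 0 - 6) x (T x.1 s) := fun s => W_rel (relT x.1 x.2 s)
    refine ⟨fun s => ?_, fun s => ?_⟩
    · simpa [xx] using this s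
    · simpa using this s
  | succ k ih =>
    intro U x hx
    have hp : 0 < 8 ^ k := by positivity
    have h2 : 1 ≤ 2 ^ k := Nat.one_le_two_pow
    obtain ⟨i, hi8, hi⟩ : ∃ i < 8, x.1 / 8 ^ k = 8 * U + i := by
      refine ⟨(x.1 / 8 ^ k) % 8, Nat.mod_lt _ (by norm_num), ?_⟩
      have : x.1 / 8 ^ k / 8 = U := by
        rw [Nat.div_div_eq_div_mul, ← pow_succ]; exact hx
      omega
    obtain ⟨hE, hY⟩ := ih _ x hi
    have hsum : (7 * 2 ^ k - 6) + 6 + (7 * 2 ^ k - 6) = 7 * 2 ^ (k + 1) - 6 := by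
      rw [pow_succ]; omega
    have hle : 7 * 2 ^ k - 6 ≤ 7 * 2 ^ (k + 1) - 6 := by omega
    have eX : U * 8 ^ (k + 1) + xx (k + 1) = (8 * U + 1) * 8 ^ k + xx k := by
      simp only [xx, pow_succ]; ring
    have eY : U * 8 ^ (k + 1) = (8 * U + 0) * 8 ^ k := by rw [pow_succ]; ring
    have hjp : (T (jp k U) 0).1 / 8 ^ k = 8 * U + 1 := by
      show (8 * U + 1) * 8 ^ k / 8 ^ k = _
      exact Nat.mul_div_cancel _ hp
    have hxx := xx_lt k
    have hjc0 : (T (jc k U 0) 0).1 / 8 ^ k = 8 * U + 0 := by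
      show ((8 * U + 0) * 8 ^ k + xx k) / 8 ^ k = _
      rw [Nat.add_comm, Nat.add_mul_div_right _ _ hp, Nat.div_eq_of_lt (by omega), zero_add]
    rw [eX, eY]
    constructor
    · intro s
      by_cases h1 : i = 1
      · subst h1
        exact W_mono hle (hE s)
      · have a1 : W (7 * 2 ^ k - 6) x (T (jc k U i) 0) := hE 0
        have a2 : W 6 (T (jc k U i) 0) (T (jp k U) 0) :=
          W_mono (by norm_num) (W_symm (W_junction k U i hi8 h1 0 0))
        have a3 := (ih _ _ hjp).1 s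
        have := W_trans (W_trans a1 a2) a3
        rwa [hsum] at this
    · intro s
      by_cases h0 : i = 0
      · subst h0
        exact W_mono hle (hY s)
      · by_cases h1 : i = 1
        · subst h1
          have a1 : W (7 * 2 ^ k - 6) x (T (jp k U) 0) := hY 0
          have a2 : W 6 (T (jp k U) 0) (T (jc k U 0) 0) :=
            W_mono (by norm_num) (W_junction k U 0 (by norm_num) (by norm_num) 0 0)
          have a3 := (ih _ _ hjc0).2 s
          have := W_trans (W_trans a1 a2) a3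
          rwa [hsum] at this
        · have a1 : W (7 * 2 ^ k - 6) x (T (jc k U i) 0) := hE 0
          have a2 : W 6 (T (jc k U i) 0) (T (jc k U 0) 0) :=
            W_junction' k U i 0 hi8 h1 (by norm_num) (by norm_num) 0 0
          have a3 := (ih _ _ hjc0).2 s
          have := W_trans (W_trans a1 a2) a3
          rwa [hsum] at this

theorem cell_diam (k : ℕ) {x y : VV} (h : x.1 / 8 ^ k = y.1 / 8 ^ k) : W (14 * 2 ^ k) x y := by
  have h1 := (cellW k _ x rfl).1 0
  have h2 := (cellW k _ y h.symm).1 0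
  exact W_mono (by omega) (W_trans h1 (W_symm h2))

theorem GG_connected : GG.Connected := by
  rw [SimpleGraph.connected_iff]
  refine ⟨fun x y => ?_, ⟨(0, 0)⟩⟩
  have hx : x.1 < 8 ^ (x.1 + y.1) := lt_of_le_of_lt (Nat.le_add_right _ _)
    (Nat.lt_pow_self (by norm_num))
  have hy : y.1 < 8 ^ (x.1 + y.1) := lt_of_le_of_lt (Nat.le_add_left _ _)
    (Nat.lt_pow_self (by norm_num))
  obtain ⟨q, _⟩ := cell_diam (x.1 + y.1) (x := x) (y := y)
    (by rw [Nat.div_eq_of_lt hx, Nat.div_eq_of_lt hy])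
  exact ⟨q⟩

/-! ### lower bounds on distances -/

/-- distance to the exit within a cell of level `j` -/
def dX : ℕ → ℕ → ℕ
  | 0, _ => 0
  | j + 1, e => (if e / 8 ^ j % 8 = 1 then 0 else 2 ^ j) + dX j e

/-- distance to the other terminal within a cell of level `j` -/
def dY : ℕ → ℕ → ℕ
  | 0, _ => 0
  | j + 1, e => if e / 8 ^ j % 8 = 0 then dY j e
      else if e / 8 ^ j % 8 = 1 then 2 ^ j + dY j e else 2 ^ j + dX j e

theorem dig_add (c r j t : ℕ) (ht : t < j) : (c * 8 ^ j + r) / 8 ^ t % 8 = r / 8 ^ t % 8 := by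
  have e : c * 8 ^ j + r = r + (c * 8 ^ (j - t - 1) * 8) * 8 ^ t := by
    have : 8 ^ j = 8 ^ (j - t - 1) * 8 * 8 ^ t := by
      rw [← pow_succ, ← pow_add]; congr 1; omega
    rw [this]; ring
  rw [e, Nat.add_mul_div_right _ _ (by positivity), Nat.add_mul_mod_self_right]

theorem dX_congr (j : ℕ) {e f : ℕ} (h : ∀ t < j, e / 8 ^ t % 8 = f / 8 ^ t % 8) :
    dX j e = dX j f := by
  induction j with
  | zero => rfl
  | succ j ih =>
    simp only [dX, h j (Nat.lt_succ_self j), ih fun t ht => h t (Nat.lt_succ_of_lt ht)]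

theorem dY_congr (j : ℕ) {e f : ℕ} (h : ∀ t < j, e / 8 ^ t % 8 = f / 8 ^ t % 8) :
    dY j e = dY j f := by
  induction j with
  | zero => rfl
  | succ j ih =>
    simp only [dY, h j (Nat.lt_succ_self j), ih fun t ht => h t (Nat.lt_succ_of_lt ht),
      dX_congr j fun t ht => h t (Nat.lt_succ_of_lt ht)]

theorem xx_dig (j : ℕ) : ∀ t < j, xx j / 8 ^ t % 8 = 1 := by
  induction j with
  | zero => intro t ht; omega
  | succ j ih =>
    intro t ht
    have hlt := xx_lt j
    rcases Nat.lt_or_ge t j with h | h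
    · have : xx (j + 1) = 1 * 8 ^ j + xx j := by simp [xx]
      rw [this, dig_add _ _ _ _ h]
      exact ih t h
    · have : t = j := by omega
      subst this
      have : xx (t + 1) = xx t + 1 * 8 ^ t := by simp [xx]; ring
      rw [this, Nat.add_mul_div_right _ _ (by positivity), Nat.div_eq_of_lt (by omega)]

theorem dX_exit (j c : ℕ) : dX j (c * 8 ^ j + xx j) = 0 := by
  rw [dX_congr j (f := xx j) fun t ht => dig_add c _ _ _ ht]
  suffices ∀ i ≤ j, dX i (xx j) = 0 from this j le_rfl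
  intro i
  induction i with
  | zero => intro _; rfl
  | succ i ih =>
    intro hi
    simp only [dX, xx_dig j i hi, if_true, zero_add]
    exact ih (by omega)

theorem dY_exit (j c : ℕ) : dY j (c * 8 ^ j + xx j) = 2 ^ j - 1 := by
  rw [dY_congr j (f := xx j) fun t ht => dig_add c _ _ _ ht]
  suffices ∀ i ≤ j, dY i (xx j) = 2 ^ i - 1 from this j le_rfl
  intro i
  induction i with
  | zero => intro _; rfl
  | succ i ih =>
    intro hi
    have h1 : 1 ≤ 2 ^ i := Nat.one_le_two_pow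
    simp only [dY, xx_dig j i hi, if_true, if_neg (show (1 : ℕ) ≠ 0 by norm_num)]
    rw [ih (by omega), pow_succ]; omega

theorem dX_low (j c : ℕ) : dX j (c * 8 ^ j) = 2 ^ j - 1 := by
  have : c * 8 ^ j = c * 8 ^ j + 0 := by ring
  rw [this, dX_congr j (f := 0) fun t ht => dig_add c _ _ _ ht]
  induction j with
  | zero => rfl
  | succ i ih =>
    have h1 : 1 ≤ 2 ^ i := Nat.one_le_two_pow
    simp only [dX, Nat.zero_div, Nat.zero_mod, if_neg (show (0 : ℕ) ≠ 1 by norm_num)]
    rw [ih (by ring), pow_succ]; omega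

theorem dY_low (j c : ℕ) : dY j (c * 8 ^ j) = 0 := by
  have : c * 8 ^ j = c * 8 ^ j + 0 := by ring
  rw [this, dY_congr j (f := 0) fun t ht => dig_add c _ _ _ ht]
  induction j with
  | zero => rfl
  | succ i ih =>
    simp only [dY, Nat.zero_div, Nat.zero_mod, if_true]
    exact ih (by ring)

theorem jc_div (k U i : ℕ) (h8 : i < 8) : jc k U i / 8 ^ k = 8 * U + i := by
  unfold jc
  have h := xx_lt k
  rw [Nat.add_comm, Nat.add_mul_div_right _ _ (by positivity), Nat.div_eq_of_lt (by omega),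
    zero_add]

theorem jp_div (k U : ℕ) : jp k U / 8 ^ k = 8 * U + 1 := Nat.mul_div_cancel _ (by positivity)

theorem jmem_div {k U e : ℕ} (h : jmem k U e) : e / 8 ^ (k + 1) = U := by
  rw [pow_succ, ← Nat.div_div_eq_div_mul]
  rcases h with rfl | ⟨i, h8, h1, rfl⟩
  · rw [jp_div]; omega
  · rw [jc_div _ _ _ h8]; omega

theorem dXY_base {k U e : ℕ} (h : jmem k U e) : (2 ^ k - 1 ≤ dX (k + 1) e ∧ dX (k + 1) e ≤ 2 ^ k) ∧
    (2 ^ k - 1 ≤ dY (k + 1) e ∧ dY (k + 1) e ≤ 2 ^ k) := by
  have h1 : 1 ≤ 2 ^ k := Nat.one_le_two_pow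
  rcases h with rfl | ⟨i, h8, hi1, rfl⟩
  · have e1 : jp k U / 8 ^ k % 8 = 1 := by rw [jp_div]; omega
    simp only [dX, dY, e1, if_true, if_neg (show (1 : ℕ) ≠ 0 by norm_num)]
    have a : dX k (jp k U) = 2 ^ k - 1 := dX_low k _
    have b : dY k (jp k U) = 0 := dY_low k _
    rw [a, b]
    omega
  · have e1 : jc k U i / 8 ^ k % 8 = i := by rw [jc_div _ _ _ h8]; omega
    have a : dX k (jc k U i) = 0 := dX_exit k _
    have b : dY k (jc k U i) = 2 ^ k - 1 := dY_exit k _
    simp only [dX, dY, e1, if_neg hi1, a, b]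
    constructor
    · omega
    · split_ifs <;> omega

theorem dXY_lip {k U : ℕ} (j : ℕ) (hj : k + 1 ≤ j) : ∀ e f, jmem k U e → jmem k U f →
    dX j e ≤ dX j f + 1 ∧ dY j e ≤ dY j f + 1 := by
  induction j, hj using Nat.le_induction with
  | base =>
    intro e f he hf
    have h1 := dXY_base he
    have h2 := dXY_base hf
    omega
  | succ j hj ih =>
    intro e f he hf
    obtain ⟨i1, i2⟩ := ih e f he hf
    have hd : e / 8 ^ j = f / 8 ^ j := by
      have : 8 ^ j = 8 ^ (k + 1) * 8 ^ (j - (k + 1)) := by rw [← pow_add]; congr 1; omega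
      rw [this, ← Nat.div_div_eq_div_mul, ← Nat.div_div_eq_div_mul, jmem_div he, jmem_div hf]
    simp only [dX, dY, hd]
    constructor
    · omega
    · split_ifs <;> omega

theorem xx_split (k j : ℕ) (h : j ≤ k) : xx k = xx (k - j) * 8 ^ j + xx j := by
  induction k, h using Nat.le_induction with
  | base => simp [xx]
  | succ k hk ih =>
    have e : k + 1 - j = (k - j) + 1 := by omega
    rw [e]
    simp only [xx]
    rw [ih, add_mul, ← pow_add]
    have : k - j + j = k := by omega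
    rw [this]; ring

theorem jp_split (k j U : ℕ) (h : j ≤ k) : jp k U = jp (k - j) U * 8 ^ j := by
  unfold jp
  have : 8 ^ k = 8 ^ (k - j) * 8 ^ j := by rw [← pow_add]; congr 1; omega
  rw [this]; ring

theorem jc_split (k j U i : ℕ) (h : j ≤ k) : jc k U i = jc (k - j) U i * 8 ^ j + xx j := by
  unfold jc
  have : 8 ^ k = 8 ^ (k - j) * 8 ^ j := by rw [← pow_add]; congr 1; omega
  rw [this, xx_split k j h]; ring

theorem xx_succ' (k : ℕ) : xx (k + 1) = 8 * xx k + 1 := by
  have h1 := xx_lt k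
  have h2 := xx_lt (k + 1)
  rw [pow_succ] at h2
  omega

theorem jc_succ (k U i : ℕ) : jc (k + 1) U i = 8 * jc k U i + 1 := by
  unfold jc; rw [xx_succ', pow_succ]; ring

theorem jp_succ (k U : ℕ) : jp (k + 1) U = 8 * jp k U := by
  unfold jp; rw [pow_succ]; ring

theorem jc_uniq : ∀ (k k1 U U1 i i1 : ℕ), i < 8 → i ≠ 1 → i1 < 8 → i1 ≠ 1 →
    jc k U i = jc k1 U1 i1 → k = k1 ∧ U = U1 := by
  intro k
  induction k with
  | zero =>
    intro k1 U U1 i i1 h8 h1 h8' h1' h
    cases k1 with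
    | zero => simp only [jc, pow_zero, xx] at h; omega
    | succ k1 => rw [jc_succ] at h; simp only [jc, pow_zero, xx] at h; omega
  | succ k ih =>
    intro k1 U U1 i i1 h8 h1 h8' h1' h
    cases k1 with
    | zero => rw [jc_succ] at h; simp only [jc, pow_zero, xx] at h; omega
    | succ k1 =>
      rw [jc_succ, jc_succ] at h
      have := ih k1 U U1 i i1 h8 h1 h8' h1' (by omega)
      omega

theorem jp_uniq : ∀ (k k1 U U1 : ℕ), jp k U = jp k1 U1 → k = k1 ∧ U = U1 := by
  intro k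
  induction k with
  | zero =>
    intro k1 U U1 h
    cases k1 with
    | zero => simp only [jp, pow_zero] at h; omega
    | succ k1 => rw [jp_succ] at h; simp only [jp, pow_zero] at h; omega
  | succ k ih =>
    intro k1 U U1 h
    cases k1 with
    | zero => rw [jp_succ] at h; simp only [jp, pow_zero] at h; omega
    | succ k1 =>
      rw [jp_succ, jp_succ] at h
      have := ih k1 U U1 (by omega)
      omega

def conX (u c : ℕ) : Prop := ∃ k U, jmem k U u ∧ ∃ i, i < 8 ∧ i ≠ 1 ∧ c = jc k U i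

def conY (u c : ℕ) : Prop := ∃ k U, jmem k U u ∧ c = jp k U

def St (j u n : ℕ) (y : VV) : Prop := y.1 / 8 ^ j = u ∨
  (conX u (y.1 / 8 ^ j) ∧ dX j y.1 + 1 ≤ n) ∨ (conY u (y.1 / 8 ^ j) ∧ dY j y.1 + 1 ≤ n)

theorem St_of_member {j u n k U : ℕ} (hkj : j ≤ k) (hu : jmem (k - j) U u) {z : VV}
    (hz : jmem k U z.1) : St j u (n + 1) z := by
  have hp : 0 < 8 ^ j := by positivity
  have hxj := xx_lt j
  rcases hz with hz | ⟨i, h8, h1, hz⟩
  · right; right
    rw [jp_split k j U hkj] at hz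
    refine ⟨⟨k - j, U, hu, ?_⟩, ?_⟩
    · rw [hz, Nat.mul_div_cancel _ hp]
    · rw [hz, dY_low]; omega
  · right; left
    rw [jc_split k j U i hkj] at hz
    refine ⟨⟨k - j, U, hu, i, h8, h1, ?_⟩, ?_⟩
    · rw [hz, Nat.add_comm, Nat.add_mul_div_right _ _ hp, Nat.div_eq_of_lt (by omega), zero_add]
    · rw [hz, dX_exit]; omega

theorem St_step {j u n : ℕ} (hn : n < 2 ^ j) {y z : VV} (hy : St j u n y) (hr : Rel y z) :
    St j u (n + 1) z := by
  have hp : 0 < 8 ^ j := by positivity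
  have hxj := xx_lt j
  have h2 : 1 ≤ 2 ^ j := Nat.one_le_two_pow
  rcases rel_cases hr with he | ⟨k, U, hmy, hmz⟩
  · unfold St at hy ⊢
    rw [← he]
    rcases hy with h | ⟨h, h'⟩ | ⟨h, h'⟩
    · exact Or.inl h
    · exact Or.inr (Or.inl ⟨h, by omega⟩)
    · exact Or.inr (Or.inr ⟨h, by omega⟩)
  · rcases Nat.lt_or_ge k j with hkj | hkj
    · -- same cell
      have hc : z.1 / 8 ^ j = y.1 / 8 ^ j := by
        have : 8 ^ j = 8 ^ (k + 1) * 8 ^ (j - (k + 1)) := by rw [← pow_add]; congr 1; omega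
        rw [this, ← Nat.div_div_eq_div_mul, ← Nat.div_div_eq_div_mul, jmem_div hmy, jmem_div hmz]
      obtain ⟨l1, l2⟩ := dXY_lip j hkj z.1 y.1 hmz hmy
      unfold St at hy ⊢
      rw [hc]
      rcases hy with h | ⟨h, h'⟩ | ⟨h, h'⟩
      · exact Or.inl h
      · exact Or.inr (Or.inl ⟨h, by omega⟩)
      · exact Or.inr (Or.inr ⟨h, by omega⟩)
    · -- a coarse junction
      have cy : jmem (k - j) U (y.1 / 8 ^ j) := by
        rcases hmy with h | ⟨i, h8, h1, h⟩
        · left; rw [h, jp_split k j U hkj, Nat.mul_div_cancel _ hp]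
        · right
          refine ⟨i, h8, h1, ?_⟩
          rw [h, jc_split k j U i hkj, Nat.add_comm, Nat.add_mul_div_right _ _ hp,
            Nat.div_eq_of_lt (by omega), zero_add]
      suffices jmem (k - j) U u from St_of_member hkj this hmz
      rcases hy with h | ⟨⟨k1, U1, hm, i1, h8, h1, h⟩, h'⟩ | ⟨⟨k1, U1, hm, h⟩, h'⟩
      · rwa [h] at cy
      · rcases hmy with hh | ⟨i, h8', h1', hh⟩
        · rw [hh, jp_split k j U hkj, dX_low] at h'; omega
        · rw [hh, jc_split k j U i hkj, Nat.add_comm, Nat.add_mul_div_right _ _ hp,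
            Nat.div_eq_of_lt (by omega), zero_add] at h
          obtain ⟨r1, r2⟩ := jc_uniq _ _ _ _ _ _ h8' h1' h8 h1 h
          rw [r1, r2]; exact hm
      · rcases hmy with hh | ⟨i, h8', h1', hh⟩
        · rw [hh, jp_split k j U hkj, Nat.mul_div_cancel _ hp] at h
          obtain ⟨r1, r2⟩ := jp_uniq _ _ _ _ h
          rw [r1, r2]; exact hm
        · rw [hh, jc_split k j U i hkj, dY_exit] at h'; omega

theorem St_walk {j u : ℕ} {y z : VV} (q : GG.Walk y z) : ∀ n, n + q.length ≤ 2 ^ j →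
    St j u n y → St j u (n + q.length) z := by
  induction q with
  | nil => intro n _ h; simpa using h
  | cons h q ih =>
    intro n hn hst
    rw [SimpleGraph.Walk.length_cons] at hn ⊢
    have := ih (n + 1) (by omega) (St_step (by omega) hst h.2)
    convert this using 1
    omega

/-- at most 19 cells can be reached -/
theorem cells_near (u : ℕ) : ∃ S : Finset ℕ, S.card ≤ 19 ∧ ∀ c, (c = u ∨ conX u c ∨ conY u c) →
    c ∈ S := by
  classical
  let M : ℕ → ℕ → Finset ℕ := fun k U => insert (jp k U) ((Finset.range 8).image (jc k U))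
  have hM : ∀ k U, (M k U).card ≤ 9 := by
    intro k U
    refine (Finset.card_insert_le _ _).trans ?_
    have := Finset.card_image_le (s := Finset.range 8) (f := jc k U)
    rw [Finset.card_range] at this
    omega
  have hmem : ∀ k U c, jmem k U c → c ∈ M k U := by
    rintro k U c (rfl | ⟨i, h8, _, rfl⟩)
    · exact Finset.mem_insert_self _ _
    · exact Finset.mem_insert_of_mem (Finset.mem_image_of_mem _ (Finset.mem_range.2 h8))
  obtain ⟨k, U, i, h8, h1, hu⟩ := exists_jc u 0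
  simp only [pow_zero, mul_one, xx, add_zero] at hu
  by_cases hpar : ∃ k' U', u = jp k' U'
  · obtain ⟨k', U', hu'⟩ := hpar
    refine ⟨insert u (M k U ∪ M k' U'), ?_, ?_⟩
    · refine (Finset.card_insert_le _ _).trans ?_
      have := Finset.card_union_le (M k U) (M k' U')
      have := hM k U
      have := hM k' U'
      omega
    · have key : ∀ k1 U1, jmem k1 U1 u → (k1 = k ∧ U1 = U) ∨ (k1 = k' ∧ U1 = U') := by
        rintro k1 U1 (h | ⟨i1, h8', h1', h⟩)
        · right
          exact jp_uniq _ _ _ _ (h.symm.trans hu')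
        · left
          exact jc_uniq _ _ _ _ _ _ h8' h1' h8 h1 (h.symm.trans hu)
      rintro c (rfl | ⟨k1, U1, hm, i1, h8', h1', rfl⟩ | ⟨k1, U1, hm, rfl⟩)
      · exact Finset.mem_insert_self _ _
      · apply Finset.mem_insert_of_mem
        rcases key _ _ hm with ⟨rfl, rfl⟩ | ⟨rfl, rfl⟩
        · exact Finset.mem_union_left _ (hmem _ _ _ (Or.inr ⟨i1, h8', h1', rfl⟩))
        · exact Finset.mem_union_right _ (hmem _ _ _ (Or.inr ⟨i1, h8', h1', rfl⟩))
      · apply Finset.mem_insert_of_mem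
        rcases key _ _ hm with ⟨rfl, rfl⟩ | ⟨rfl, rfl⟩
        · exact Finset.mem_union_left _ (hmem _ _ _ (Or.inl rfl))
        · exact Finset.mem_union_right _ (hmem _ _ _ (Or.inl rfl))
  · refine ⟨insert u (M k U), ?_, ?_⟩
    · refine (Finset.card_insert_le _ _).trans ?_
      have := hM k U
      omega
    · have key : ∀ k1 U1, jmem k1 U1 u → (k1 = k ∧ U1 = U) := by
        rintro k1 U1 (h | ⟨i1, h8', h1', h⟩)
        · exact absurd ⟨k1, U1, h⟩ hpar
        · exact jc_uniq _ _ _ _ _ _ h8' h1' h8 h1 (h.symm.trans hu)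
      rintro c (rfl | ⟨k1, U1, hm, i1, h8', h1', rfl⟩ | ⟨k1, U1, hm, rfl⟩)
      · exact Finset.mem_insert_self _ _
      · apply Finset.mem_insert_of_mem
        obtain ⟨rfl, rfl⟩ := key _ _ hm
        exact hmem _ _ _ (Or.inr ⟨i1, h8', h1', rfl⟩)
      · apply Finset.mem_insert_of_mem
        obtain ⟨rfl, rfl⟩ := key _ _ hm
        exact hmem _ _ _ (Or.inl rfl)

/-- balls of radius at most `2 ^ j` are small -/
theorem ball_upper (j : ℕ) (v : VV) : ∃ B : Finset VV, B.card ≤ 57 * 8 ^ j ∧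
    ∀ w, GG.dist v w ≤ 2 ^ j → w ∈ B := by
  classical
  obtain ⟨S, hS, hmem⟩ := cells_near (v.1 / 8 ^ j)
  refine ⟨((S ×ˢ Finset.range (8 ^ j)) ×ˢ (Finset.univ : Finset (Fin 3))).image
    (fun a => (a.1.1 * 8 ^ j + a.1.2, a.2)), ?_, ?_⟩
  · refine Finset.card_image_le.trans ?_
    rw [Finset.card_product, Finset.card_product, Finset.card_range, Finset.card_univ,
      Fintype.card_fin]
    have : S.card * 8 ^ j ≤ 19 * 8 ^ j := Nat.mul_le_mul_right _ hS
    omega
  · intro w hw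
    obtain ⟨q, hq⟩ := (GG_connected v w).exists_walk_length_eq_dist
    have h := St_walk (j := j) (u := v.1 / 8 ^ j) q 0 (by omega) (Or.inl rfl)
    have hc : w.1 / 8 ^ j ∈ S := by
      apply hmem
      rcases h with h | ⟨h, _⟩ | ⟨h, _⟩
      · exact Or.inl h
      · exact Or.inr (Or.inl h)
      · exact Or.inr (Or.inr h)
    rw [Finset.mem_image]
    refine ⟨((w.1 / 8 ^ j, w.1 % 8 ^ j), w.2), ?_, ?_⟩
    · simp only [Finset.mem_product, Finset.mem_range, Finset.mem_univ, and_true]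
      exact ⟨hc, Nat.mod_lt _ (by positivity)⟩
    · simp only
      rw [Nat.div_add_mod']

theorem ball_lower (k : ℕ) (v : VV) : ∃ B : Finset VV, B.card = 3 * 8 ^ k ∧
    ∀ w ∈ B, GG.dist v w ≤ 14 * 2 ^ k := by
  classical
  refine ⟨((Finset.range (8 ^ k)) ×ˢ (Finset.univ : Finset (Fin 3))).image
    (fun a => (v.1 / 8 ^ k * 8 ^ k + a.1, a.2)), ?_, ?_⟩
  · rw [Finset.card_image_of_injective, Finset.card_product, Finset.card_range, Finset.card_univ,
      Fintype.card_fin, mul_comm]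
    intro a b h
    simp only [Prod.mk.injEq, Nat.add_left_cancel_iff] at h
    exact Prod.ext h.1 h.2
  · intro w hw
    obtain ⟨a, ha, rfl⟩ := Finset.mem_image.1 hw
    simp only [Finset.mem_product, Finset.mem_range] at ha
    obtain ⟨q, hq⟩ := cell_diam k (x := v) (y := (v.1 / 8 ^ k * 8 ^ k + a.1, a.2)) (by
      simp only
      rw [Nat.add_comm, Nat.add_mul_div_right _ _ (by positivity), Nat.div_eq_of_lt ha.1, zero_add])
    exact (SimpleGraph.dist_le q).trans hq

theorem ball_finite (v : VV) (n : ℕ) : {w | GG.dist v w ≤ n}.Finite := by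
  obtain ⟨B, _, hB⟩ := ball_upper n v
  refine B.finite_toSet.subset fun w hw => hB w (le_trans hw ?_)
  exact (Nat.lt_two_pow_self).le

theorem growth (n : ℕ) (hn : 1 ≤ n) (v : VV) :
    (1 / 22000 : ℝ) * (n : ℝ) ^ 3 < ({w | GG.dist v w ≤ n}.ncard : ℝ) ∧
    ({w | GG.dist v w ≤ n}.ncard : ℝ) < 457 * (n : ℝ) ^ 3 := by
  have hn' : (1 : ℝ) ≤ n := by exact_mod_cast hn
  constructor
  · rcases Nat.lt_or_ge n 14 with h | h
    · have h1 : 1 ≤ {w | GG.dist v w ≤ n}.ncard :=
        (Set.ncard_pos (ball_finite v n)).2 ⟨v, by simp⟩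
      have h2 : (1 : ℝ) ≤ {w | GG.dist v w ≤ n}.ncard := by exact_mod_cast h1
      have h3 : (n : ℝ) ≤ 14 := by exact_mod_cast h.le
      have h4 : (n : ℝ) ^ 3 ≤ 14 ^ 3 := pow_le_pow_left₀ (by positivity) h3 3
      norm_num at h4
      linarith
    · -- choose k with 14 * 2^k ≤ n < 28 * 2^k
      set m := n / 14 with hm
      have hm1 : 1 ≤ m := by omega
      set k := Nat.log 2 m with hk
      have k1 : 2 ^ k ≤ m := Nat.pow_log_le_self 2 (by omega)
      have k2 : m < 2 ^ (k + 1) := Nat.lt_pow_succ_log_self (by norm_num) m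
      have a1 : 14 * 2 ^ k ≤ n := by omega
      have a2 : n < 28 * 2 ^ k := by rw [pow_succ] at k2; omega
      obtain ⟨B, hB, hBd⟩ := ball_lower k v
      have h1 : B.card ≤ {w | GG.dist v w ≤ n}.ncard := by
        rw [← Set.ncard_coe_finset]
        exact Set.ncard_le_ncard (fun w hw => (hBd w hw).trans a1) (ball_finite v n)
      rw [hB] at h1
      have h2 : (3 * 8 ^ k : ℝ) ≤ {w | GG.dist v w ≤ n}.ncard := by exact_mod_cast h1
      have h3 : (n : ℝ) ≤ 28 * 2 ^ k := by exact_mod_cast a2.le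
      have h4 : (n : ℝ) ^ 3 ≤ (28 * 2 ^ k) ^ 3 := pow_le_pow_left₀ (by positivity) h3 3
      have h5 : (28 * 2 ^ k : ℝ) ^ 3 = 21952 * 8 ^ k := by
        rw [mul_pow, ← pow_mul, mul_comm k 3, pow_mul]; norm_num
      rw [h5] at h4
      have h6 : (0 : ℝ) < 8 ^ k := by positivity
      linarith
  · set j := Nat.log 2 n with hj
    have j1 : 2 ^ j ≤ n := Nat.pow_log_le_self 2 (by omega)
    have j2 : n < 2 ^ (j + 1) := Nat.lt_pow_succ_log_self (by norm_num) n
    obtain ⟨B, hB, hBd⟩ := ball_upper (j + 1) v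
    have h1 : {w | GG.dist v w ≤ n}.ncard ≤ B.card := by
      rw [← Set.ncard_coe_finset]
      exact Set.ncard_le_ncard (fun w hw => hBd w (le_trans hw j2.le)) B.finite_toSet
    have h2 : ({w | GG.dist v w ≤ n}.ncard : ℝ) ≤ 57 * 8 ^ (j + 1) := by
      exact_mod_cast h1.trans hB
    have h3 : (2 ^ j : ℝ) ≤ n := by exact_mod_cast j1
    have h4 : (2 ^ j : ℝ) ^ 3 ≤ (n : ℝ) ^ 3 := pow_le_pow_left₀ (by positivity) h3 3
    have h5 : (2 ^ j : ℝ) ^ 3 = 8 ^ j := by
      rw [← pow_mul, mul_comm j 3, pow_mul]; norm_num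
    rw [h5] at h4
    have h6 : (8 : ℝ) ^ (j + 1) = 8 * 8 ^ j := by rw [pow_succ]; ring
    rw [h6] at h2
    have h7 : (0 : ℝ) < 8 ^ j := by positivity
    linarith

/-! ### the small separators -/

theorem exit_of_leave {k : ℕ} {a b : VV} (ha : a.1 < 8 ^ k) (hb : 8 ^ k ≤ b.1) (h : Rel a b) :
    a.1 = xx k := by
  rcases rel_cases h with he | ⟨k', U, hma, hmb⟩
  · omega
  · have hkk : k ≤ k' := by
      by_contra hc
      push Not at hc
      have : 8 ^ k = 8 ^ (k' + 1) * 8 ^ (k - (k' + 1)) := by rw [← pow_add]; congr 1; omega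
      have h1 : a.1 / 8 ^ k = b.1 / 8 ^ k := by
        rw [this, ← Nat.div_div_eq_div_mul, ← Nat.div_div_eq_div_mul, jmem_div hma, jmem_div hmb]
      have h2 : a.1 / 8 ^ k = 0 := Nat.div_eq_of_lt ha
      have h3 : 1 ≤ b.1 / 8 ^ k := (Nat.one_le_div_iff (by positivity)).2 hb
      omega
    have hpow : 8 ^ k ≤ 8 ^ k' := Nat.pow_le_pow_right (by norm_num) hkk
    rcases hma with h | ⟨i, h8, h1, h⟩
    · exfalso
      rw [h] at ha
      unfold jp at ha
      have : 1 * 8 ^ k' ≤ (8 * U + 1) * 8 ^ k' := Nat.mul_le_mul_right _ (by omega)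
      omega
    · rw [h] at ha ⊢
      unfold jc at ha ⊢
      have h0 : 8 * U + i = 0 := by
        by_contra hc
        have : 1 * 8 ^ k' ≤ (8 * U + i) * 8 ^ k' := Nat.mul_le_mul_right _ (by omega)
        omega
      rw [h0, zero_mul, zero_add] at ha ⊢
      rcases Nat.lt_or_ge k k' with h' | h'
      · exfalso
        obtain ⟨m, rfl⟩ : ∃ m, k' = m + 1 := ⟨k' - 1, by omega⟩
        have : 8 ^ k ≤ 8 ^ m := Nat.pow_le_pow_right (by norm_num) (by omega)
        simp only [xx] at ha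
        omega
      · have : k' = k := by omega
        rw [this]

theorem walk_crosses {k : ℕ} {a b : VV} (q : GG.Walk a b) (ha : a.1 < 8 ^ k) (hb : 8 ^ k ≤ b.1) :
    ∃ x ∈ q.support, x.1 = xx k := by
  induction q with
  | nil => omega
  | cons h q ih =>
    rename_i u v w
    rcases Nat.lt_or_ge v.1 (8 ^ k) with h' | h'
    · obtain ⟨x, hx, hx'⟩ := ih h' hb
      exact ⟨x, by rw [SimpleGraph.Walk.support_cons]; exact List.mem_cons_of_mem _ hx, hx'⟩
    · exact ⟨u, by rw [SimpleGraph.Walk.support_cons]; exact List.mem_cons_self, exit_of_leave ha h' h.2⟩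

end Pool.Agent.H991R2.TriGeom
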